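import Mathlib

/-!
MP_ee9c6f_al / E4 (helper38). A criterion for the kernel of a character of a finite-index subgroup
to be finitely generated (Bieri, Neumann, Strebel): the group is generated by finitely many
elements `s` such that `z` and `s z s⁻¹` commute, and the character does not vanish on the
conjugates of `z`.
-/

set_option autoImplicit false

namespace Pool.Agent.H.MP_ee9c6f_al.E4

section

variable {G : Type*} [Group G] {M : Subgroup G} {χ : G → ℤ}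

theorem chi_one (hχ : ∀ x ∈ M, ∀ y ∈ M, χ (x * y) = χ x + χ y) : χ 1 = 0 := by
  have h := hχ 1 M.one_mem 1 M.one_mem
  rw [mul_one] at h
  omega

theorem chi_inv (hχ : ∀ x ∈ M, ∀ y ∈ M, χ (x * y) = χ x + χ y) {x : G} (hx : x ∈ M) :
    χ x⁻¹ = -χ x := by
  have h := hχ x hx x⁻¹ (M.inv_mem hx)
  rw [mul_inv_cancel, chi_one hχ] at h
  omega

theorem chi_npow (hχ : ∀ x ∈ M, ∀ y ∈ M, χ (x * y) = χ x + χ y) {x : G} (hx : x ∈ M) (n : ℕ) :
    χ (x ^ n) = n * χ x := by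
  induction n with
  | zero => simp [chi_one hχ]
  | succ n ih =>
    rw [pow_succ, hχ _ (M.pow_mem hx n) _ hx, ih]
    push_cast
    ring

theorem chi_zpow (hχ : ∀ x ∈ M, ∀ y ∈ M, χ (x * y) = χ x + χ y) {x : G} (hx : x ∈ M) (n : ℤ) :
    χ (x ^ n) = n * χ x := by
  obtain ⟨m, rfl | rfl⟩ := n.eq_nat_or_neg
  · rw [zpow_natCast, chi_npow hχ hx]
  · rw [zpow_neg, zpow_natCast, chi_inv hχ (M.pow_mem hx m), chi_npow hχ hx]
    ring

/-- Finitely many double cosets `N f ⟨z⟩`. -/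
theorem exists_reps [M.Normal] [M.FiniteIndex]
    (hχ : ∀ x ∈ M, ∀ y ∈ M, χ (x * y) = χ x + χ y) {z : G} (hzM : z ∈ M)
    (hne : ∀ g : G, χ (g * z * g⁻¹) ≠ 0) {N : Subgroup G} (hN : ∀ x, x ∈ N ↔ x ∈ M ∧ χ x = 0) :
    ∃ F : Set G, F.Finite ∧ ∀ g : G, ∃ f ∈ F, ∃ n ∈ N, ∃ j : ℤ, g = n * f * z ^ j := by
  classical
  have : Finite (G ⧸ M) := inferInstance
  -- the classifying map
  let t : G → G := fun g => (QuotientGroup.mk g : G ⧸ M).out
  have ht : ∀ g, g * (t g)⁻¹ ∈ M := by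
    intro g
    have h : (t g)⁻¹ * g ∈ M := by
      rw [← QuotientGroup.eq]
      exact QuotientGroup.out_eq' _
    have h2 := (inferInstance : M.Normal).conj_mem _ h (t g)
    rwa [← mul_assoc, mul_inv_cancel, one_mul] at h2
  let Ψ : G → G × ℤ := fun g => (t g, χ (g * (t g)⁻¹) % χ (t g * z * (t g)⁻¹))
  have hfin : (Set.range Ψ).Finite := by
    have h1 : (Set.range t).Finite := by
      refine (Set.finite_range (fun q : G ⧸ M => q.out)).subset ?_
      rintro _ ⟨g, rfl⟩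
      exact ⟨_, rfl⟩
    have h2 : (⋃ a ∈ Set.range t, (fun r : ℤ => (a, r)) ''
        Set.Ico 0 |χ (a * z * a⁻¹)|).Finite := by
      refine h1.biUnion fun a _ => ?_
      exact (Set.finite_Ico _ _).image _
    refine h2.subset ?_
    rintro _ ⟨g, rfl⟩
    simp only [Set.mem_iUnion]
    refine ⟨t g, ⟨g, rfl⟩, _, ⟨Int.emod_nonneg _ (hne _), ?_⟩, rfl⟩
    exact Int.emod_lt_abs _ (hne _)
  choose sec hsec using fun v : Set.range Ψ => v.2
  have : Finite (Set.range Ψ) := hfin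
  refine ⟨Set.range sec, Set.finite_range _, fun g => ?_⟩
  let f := sec ⟨Ψ g, g, rfl⟩
  have hf : Ψ f = Ψ g := hsec _
  have ht' : t f = t g := congrArg Prod.fst hf
  have hr : χ (f * (t f)⁻¹) % χ (t f * z * (t f)⁻¹) = χ (g * (t g)⁻¹) % χ (t g * z * (t g)⁻¹) :=
    congrArg Prod.snd hf
  rw [ht'] at hr
  have hfM : f * (t g)⁻¹ ∈ M := ht' ▸ ht f
  have hgM := ht g
  have hcM : t g * z * (t g)⁻¹ ∈ M := (inferInstance : M.Normal).conj_mem _ hzM _
  obtain ⟨q, hq⟩ : χ (t g * z * (t g)⁻¹) ∣ χ (g * (t g)⁻¹) - χ (f * (t g)⁻¹) :=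
    Int.ModEq.dvd hr
  refine ⟨f, ⟨_, rfl⟩, g * (t g)⁻¹ * ((t g * z * (t g)⁻¹) ^ q)⁻¹ * (f * (t g)⁻¹)⁻¹, ?_, q, ?_⟩
  · rw [hN]
    have hcq := M.zpow_mem hcM q
    refine ⟨M.mul_mem (M.mul_mem hgM (M.inv_mem hcq)) (M.inv_mem hfM), ?_⟩
    rw [hχ _ (M.mul_mem hgM (M.inv_mem hcq)) _ (M.inv_mem hfM), hχ _ hgM _ (M.inv_mem hcq),
      chi_inv hχ hcq, chi_inv hχ hfM, chi_zpow hχ hcM]
    linarith [mul_comm q (χ (t g * z * (t g)⁻¹))]
  · rw [conj_zpow]
    group

/-- Exchange of a power of `z'` by a power of `z`. -/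
theorem exchange [M.Normal] (hχ : ∀ x ∈ M, ∀ y ∈ M, χ (x * y) = χ x + χ y) {z z' : G}
    (hzM : z ∈ M) (hz'M : z' ∈ M) (hc : Commute z z') (f : G)
    (hne : χ (f * z * f⁻¹) ≠ 0) {N : Subgroup G} (hN : ∀ x, x ∈ N ↔ x ∈ M ∧ χ x = 0) :
    ∃ k ∈ N, ∀ n : ℤ, ∃ q : ℤ, ∃ r < (χ (f * z * f⁻¹)).natAbs, ∃ m : ℤ,
      f * z' ^ n = k ^ q * (f * z' ^ r) * z ^ m := by
  set α := χ (f * z' * f⁻¹) with hα
  set β := χ (f * z * f⁻¹) with hβ
  have hn := (inferInstance : M.Normal)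
  have hfz : f * z * f⁻¹ ∈ M := hn.conj_mem _ hzM _
  have hfz' : f * z' * f⁻¹ ∈ M := hn.conj_mem _ hz'M _
  let y := z' ^ β * (z ^ α)⁻¹
  have hy : f * y * f⁻¹ = (f * z' * f⁻¹) ^ β * ((f * z * f⁻¹) ^ α)⁻¹ := by
    rw [conj_zpow, conj_zpow]
    simp only [y]
    group
  refine ⟨f * y * f⁻¹, ?_, fun n => ?_⟩
  · rw [hN, hy]
    refine ⟨M.mul_mem (M.zpow_mem hfz' _) (M.inv_mem (M.zpow_mem hfz _)), ?_⟩
    rw [hχ _ (M.zpow_mem hfz' _) _ (M.inv_mem (M.zpow_mem hfz _)), chi_inv hχ (M.zpow_mem hfz _),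
      chi_zpow hχ hfz', chi_zpow hχ hfz, ← hα, ← hβ]
    ring
  · have h0 : 0 ≤ n % β := Int.emod_nonneg _ hne
    have h1 : n % β < |β| := Int.emod_lt_abs _ hne
    obtain ⟨r, hr⟩ := Int.eq_ofNat_of_zero_le h0
    refine ⟨n / β, r, ?_, α * (n / β), ?_⟩
    · have : (r : ℤ) < (β.natAbs : ℤ) := by
        rw [← hr, Int.natCast_natAbs]; exact h1
      exact_mod_cast this
    · have hcz : Commute z' (z ^ α)⁻¹ := (hc.symm.zpow_right α).inv_right
      have hyz : Commute y z' := by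
        refine Commute.mul_left ((Commute.refl z').zpow_left β) hcz.symm
      have e1 : z' ^ n = z' ^ (r : ℤ) * (z' ^ β) ^ (n / β) := by
        rw [← zpow_mul, ← zpow_add, ← hr]
        congr 1
        have := Int.emod_add_mul_ediv n β
        linarith
      have e2 : z' ^ β = y * z ^ α := by simp [y]
      have hyα : Commute y (z ^ α) := by
        refine Commute.mul_left ?_ ?_
        · exact (hc.symm.zpow_zpow β α)
        · exact ((Commute.refl (z ^ α)).inv_left)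
      rw [e1, e2, hyα.mul_zpow, conj_zpow, ← zpow_mul, ← zpow_natCast z' r,
        ← mul_assoc (z' ^ (r : ℤ)), ((hyz.symm.zpow_zpow (r : ℤ) (n / β)).eq)]
      group

theorem core {S : Set G} (hS : S.Finite) (hcl : Subgroup.closure S = ⊤) {z : G}
    (hz : ∀ s ∈ S, Commute z (s * z * s⁻¹)) [M.Normal] [M.FiniteIndex]
    (hχ : ∀ x ∈ M, ∀ y ∈ M, χ (x * y) = χ x + χ y) (hzM : z ∈ M)
    (hne : ∀ g : G, χ (g * z * g⁻¹) ≠ 0) {N : Subgroup G} (hN : ∀ x, x ∈ N ↔ x ∈ M ∧ χ x = 0) :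
    N.FG := by
  classical
  obtain ⟨F, hF, hA⟩ := exists_reps hχ hzM hne hN
  choose fA hfA nA hnA jA hjA using hA
  have hn := (inferInstance : M.Normal)
  -- symmetric generating set
  set S' : Set G := S ∪ S⁻¹ with hS'
  have hS'fin : S'.Finite := hS.union hS.inv
  have hz' : ∀ s ∈ S', Commute z (s⁻¹ * z * s) := by
    rintro s (hs | hs)
    · have h := hz s hs
      have h2 : Commute (s⁻¹ * z * s) (s⁻¹ * (s * z * s⁻¹) * s) := by
        have := h.eq
        change s⁻¹ * z * s * (s⁻¹ * (s * z * s⁻¹) * s) = s⁻¹ * (s * z * s⁻¹) * s * (s⁻¹ * z * s)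
        have e : z * (s * z * s⁻¹) = (s * z * s⁻¹) * z := this
        calc s⁻¹ * z * s * (s⁻¹ * (s * z * s⁻¹) * s) = s⁻¹ * (z * (s * z * s⁻¹)) * s := by group
          _ = s⁻¹ * ((s * z * s⁻¹) * z) * s := by rw [e]
          _ = _ := by group
      have e3 : s⁻¹ * (s * z * s⁻¹) * s = z := by group
      rw [e3] at h2
      exact h2.symm
    · have h := hz s⁻¹ hs
      rwa [inv_inv] at h
  have hB : ∀ f s : G, ∃ k ∈ N, s ∈ S' → ∀ n : ℤ, ∃ q : ℤ, ∃ r < (χ (f * s * z * (f * s)⁻¹)).natAbs,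
      ∃ m : ℤ, f * s * (s⁻¹ * z * s) ^ n = k ^ q * (f * s * (s⁻¹ * z * s) ^ r) * z ^ m := by
    intro f s
    by_cases hs : s ∈ S'
    · obtain ⟨k, hk, h⟩ := exchange hχ hzM (z' := s⁻¹ * z * s)
        (by have := hn.conj_mem _ hzM s⁻¹; rwa [inv_inv] at this) (hz' s hs) (f * s) (hne _) hN
      exact ⟨k, hk, fun _ => h⟩
    · exact ⟨1, N.one_mem, fun h => absurd h hs⟩
  choose κ hκN hκ using hB
  -- the finite set of generators
  set K₀ : Set G := {nA 1} ∪ ⋃ f ∈ F, ⋃ s ∈ S', ({κ f s} ∪ (fun r : ℕ =>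
    nA (f * s * (s⁻¹ * z * s) ^ r)) '' Set.Iio (χ (f * s * z * (f * s)⁻¹)).natAbs) with hK₀
  have hK₀fin : K₀.Finite := by
    refine (Set.finite_singleton _).union ?_
    refine hF.biUnion fun f _ => hS'fin.biUnion fun s _ => ?_
    exact (Set.finite_singleton _).union ((Set.finite_Iio _).image _)
  have hK₀N : K₀ ⊆ N := by
    rintro x (rfl | hx)
    · exact hnA 1
    · simp only [Set.mem_iUnion] at hx
      obtain ⟨f, _, s, _, rfl | ⟨r, _, rfl⟩⟩ := hx
      · exact hκN f s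
      · exact hnA _
  set K := Subgroup.closure K₀ with hK
  have hKN : K ≤ N := (Subgroup.closure_le _).2 hK₀N
  -- the set `K F ⟨z⟩` is everything
  have key : ∀ g : G, ∃ k ∈ K, ∃ f ∈ F, ∃ j : ℤ, g = k * f * z ^ j := by
    have step : ∀ g : G, (∃ k ∈ K, ∃ f ∈ F, ∃ j : ℤ, g = k * f * z ^ j) → ∀ s ∈ S',
        ∃ k ∈ K, ∃ f ∈ F, ∃ j : ℤ, g * s = k * f * z ^ j := by
      rintro g ⟨k, hk, f, hf, j, rfl⟩ s hs
      obtain ⟨q, r, hr, m, h⟩ := hκ f s hs j
      have e1 : k * f * z ^ j * s = k * (f * s * (s⁻¹ * z * s) ^ j) := by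
        have : (s⁻¹ * z * s) ^ j = s⁻¹ * z ^ j * s := by
          have := conj_zpow (a := s⁻¹) (b := z) (i := j)
          rwa [inv_inv] at this
        rw [this]
        group
      have e2 := hjA (f * s * (s⁻¹ * z * s) ^ r)
      have hκK : κ f s ∈ K := Subgroup.subset_closure (by
        rw [hK₀]
        refine Or.inr ?_
        simp only [Set.mem_iUnion]
        exact ⟨f, hf, s, hs, Or.inl rfl⟩)
      have hνK : nA (f * s * (s⁻¹ * z * s) ^ r) ∈ K := Subgroup.subset_closure (by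
        rw [hK₀]
        refine Or.inr ?_
        simp only [Set.mem_iUnion]
        exact ⟨f, hf, s, hs, Or.inr ⟨r, hr, rfl⟩⟩)
      refine ⟨k * (κ f s ^ q * nA (f * s * (s⁻¹ * z * s) ^ r)),
        K.mul_mem hk (K.mul_mem (K.zpow_mem hκK q) hνK), fA (f * s * (s⁻¹ * z * s) ^ r), hfA _,
        jA (f * s * (s⁻¹ * z * s) ^ r) + m, ?_⟩
      rw [e1, h, zpow_add]
      nth_rewrite 1 [e2]
      simp only [mul_assoc]
    intro g
    have hg : g ∈ Subgroup.closure S := hcl ▸ Subgroup.mem_top g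
    induction hg using Subgroup.closure_induction_right with
    | one => exact ⟨nA 1, Subgroup.subset_closure (Or.inl rfl), fA 1, hfA 1, jA 1, hjA 1⟩
    | mul_right x _ y hy ih => exact step x ih y (Or.inl hy)
    | mul_inv_cancel x _ y hy ih => exact step x ih y⁻¹ (Or.inr (by simpa using hy))
  -- `N` is a finite union of cosets of `K`
  have hx : ∀ f : G, ∃ x ∈ N, ∀ j : ℤ, f * z ^ j ∈ N → f * z ^ j = x := by
    intro f
    by_cases h : ∃ j : ℤ, f * z ^ j ∈ N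
    · obtain ⟨j, hj⟩ := h
      refine ⟨f * z ^ j, hj, fun i hi => ?_⟩
      have h2 : (f * z * f⁻¹) ^ (i - j) ∈ N := by
        have : (f * z * f⁻¹) ^ (i - j) = f * z ^ i * (f * z ^ j)⁻¹ := by
          rw [conj_zpow, zpow_sub]; group
        rw [this]
        exact N.mul_mem hi (N.inv_mem hj)
      have h3 := ((hN _).1 h2).2
      rw [chi_zpow hχ (hn.conj_mem _ hzM _)] at h3
      have h4 : i - j = 0 := by
        rcases mul_eq_zero.1 h3 with h | h
        · exact h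
        · exact absurd h (hne f)
      have : i = j := by omega
      rw [this]
    · exact ⟨1, N.one_mem, fun j hj => absurd ⟨j, hj⟩ h⟩
  choose x hxN hx using hx
  have hgen : N = Subgroup.closure (K₀ ∪ x '' F) := by
    apply le_antisymm
    · intro y hy
      obtain ⟨k, hk, f, hf, j, rfl⟩ := key y
      have h1 : f * z ^ j ∈ N := by
        have := N.mul_mem (N.inv_mem (hKN hk)) hy
        rwa [mul_assoc, inv_mul_cancel_left] at this
      rw [mul_assoc, hx f j h1]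
      refine Subgroup.mul_mem _ ?_ ?_
      · exact Subgroup.closure_mono Set.subset_union_left hk
      · exact Subgroup.subset_closure (Or.inr ⟨f, hf, rfl⟩)
    · rw [Subgroup.closure_le]
      rintro y (hy | ⟨f, _, rfl⟩)
      · exact hK₀N hy
      · exact hxN f
  rw [Subgroup.fg_iff]
  exact ⟨_, hgen.symm, hK₀fin.union (hF.image _)⟩

end

end Pool.Agent.H.MP_ee9c6f_al.E4
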