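import Pool.Agent.H.MP_ee9c6f_al.E4.EndsZ
import Pool.Agent.H.MP_ee9c6f_al.E4.KerFG

/-!
MP_ee9c6f_al, genus 4 (helper40). Assembly: a subgroup with two relative ends from a character of a
normal subgroup of finite index and an element `z`.
-/

set_option autoImplicit false

namespace Pool.Agent.H.MP_ee9c6f_al.E4

open E2

/-- A surjective character with the same kernel. -/
theorem exists_surj {M : Type} [Group M] (χ : M →* Multiplicative ℤ) (h1 : ∃ m, χ m ≠ 1) :
    ∃ f : M →* Multiplicative ℤ, Function.Surjective f ∧ f.ker = χ.ker := by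
  have hinf : Infinite χ.range := by
    obtain ⟨m, hm⟩ := h1
    have hinj : Function.Injective (fun n : ℕ => (⟨χ m ^ n, ⟨m ^ n, by rw [map_pow]⟩⟩ : χ.range)) := by
      intro a b hab
      have h3 : χ m ^ a = χ m ^ b := congrArg Subtype.val hab
      have h4 : (a : ℤ) * Multiplicative.toAdd (χ m) = b * Multiplicative.toAdd (χ m) := by
        have := congrArg Multiplicative.toAdd h3
        simpa using this
      have h5 : Multiplicative.toAdd (χ m) ≠ 0 := fun h => hm (by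
        rw [← ofAdd_toAdd (χ m), h]
        rfl)
      exact_mod_cast mul_right_cancel₀ h5 h4
    exact Infinite.of_injective _ hinj
  have e : χ.range ≃* Zm := mulEquivOfCyclicCardEq (by
    rw [Nat.card_eq_zero_of_infinite, Nat.card_eq_zero_of_infinite])
  refine ⟨e.toMonoidHom.comp χ.rangeRestrict, e.surjective.comp χ.rangeRestrict_surjective, ?_⟩
  ext x
  rw [MonoidHom.mem_ker, MonoidHom.mem_ker]
  change e (χ.rangeRestrict x) = 1 ↔ _
  rw [MulEquiv.map_eq_one_iff]
  exact Subtype.ext_iff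

/-- The full statement: a normal subgroup `M` of finite index, a homomorphism `f` of `M` onto `ℤ` with
finitely generated kernel, and the kernel has two relative ends. -/
theorem assemble' {G : Type} [Group G] (M : Subgroup G) [hM : M.Normal] [M.FiniteIndex]
    (χ : M →* Multiplicative ℤ) {z : G} (hz : z ∈ M)
    (hne : ∀ g : G, χ ⟨g * z * g⁻¹, hM.conj_mem z hz g⟩ ≠ 1) {S : Set G} (hS : S.Finite)
    (hcl : Subgroup.closure S = ⊤) (hcomm : ∀ s ∈ S, Commute z (s * z * s⁻¹)) :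
    ∃ f : M →* Multiplicative ℤ, Function.Surjective f ∧ (f.ker.map M.subtype).FG ∧
      ∀ S : Set G, S.Finite → Subgroup.closure S = ⊤ → relEnds S (f.ker.map M.subtype) = 2 := by
  classical
  let χ' : G → ℤ := fun x => if h : x ∈ M then Multiplicative.toAdd (χ ⟨x, h⟩) else 0
  have hχ' : ∀ (x : G) (h : x ∈ M), χ' x = Multiplicative.toAdd (χ ⟨x, h⟩) := by
    intro x h
    simp only [χ']
    rw [dif_pos h]
  have hadd : ∀ x ∈ M, ∀ y ∈ M, χ' (x * y) = χ' x + χ' y := by
    intro x hx y hy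
    rw [hχ' x hx, hχ' y hy, hχ' (x * y) (M.mul_mem hx hy)]
    have e : (⟨x * y, M.mul_mem hx hy⟩ : M) = ⟨x, hx⟩ * ⟨y, hy⟩ := rfl
    rw [e, map_mul, toAdd_mul]
  have hone : ∀ a : Multiplicative ℤ, Multiplicative.toAdd a = 0 ↔ a = 1 := fun a => Iff.rfl
  have hne' : ∀ g : G, χ' (g * z * g⁻¹) ≠ 0 := by
    intro g h
    rw [hχ' _ (hM.conj_mem z hz g), hone] at h
    exact hne g h
  have hN : ∀ x, x ∈ χ.ker.map M.subtype ↔ x ∈ M ∧ χ' x = 0 := by
    intro x
    constructor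
    · rintro ⟨y, hy, rfl⟩
      refine ⟨y.2, ?_⟩
      change χ' (y : G) = 0
      rw [hχ' _ y.2, hone]
      exact hy
    · rintro ⟨hx, hx'⟩
      rw [hχ' x hx, hone] at hx'
      exact ⟨⟨x, hx⟩, hx', rfl⟩
  have hfg : (χ.ker.map M.subtype).FG := core hS hcl hcomm hadd hz hne' hN
  have h1 : ∃ m, χ m ≠ 1 := ⟨⟨z, hz⟩, fun h => hne 1 (by
    have e : (⟨1 * z * (1 : G)⁻¹, hM.conj_mem z hz 1⟩ : M) = ⟨z, hz⟩ := Subtype.ext (by
      simp)
    rw [e]
    exact h)⟩
  obtain ⟨f, hf, hker⟩ := exists_surj χ h1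
  refine ⟨f, hf, ?_, ?_⟩
  · rw [hker]
    exact hfg
  · intro S hfin hS
    rw [hker]
    exact relEnds_ker M χ h1 hfin hS

theorem assemble {G : Type} [Group G] (M : Subgroup G) [hM : M.Normal] [M.FiniteIndex]
    (χ : M →* Multiplicative ℤ) {z : G} (hz : z ∈ M)
    (hne : ∀ g : G, χ ⟨g * z * g⁻¹, hM.conj_mem z hz g⟩ ≠ 1) {S : Set G} (hS : S.Finite)
    (hcl : Subgroup.closure S = ⊤) (hcomm : ∀ s ∈ S, Commute z (s * z * s⁻¹)) :
    ∃ H : Subgroup G, H.FG ∧ ∀ S : Set G, S.Finite → Subgroup.closure S = ⊤ →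
      relEnds S H = 2 := by
  obtain ⟨f, -, h1, h2⟩ := assemble' M χ hz hne hS hcl hcomm
  exact ⟨_, h1, h2⟩

end Pool.Agent.H.MP_ee9c6f_al.E4
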