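import Pool.Agent.H.MP_ee9c6f_al.E4.Model
import Pool.Agent.H.MP_ee9c6f_al.E4.Model3
import Pool.Agent.H.MP_ee9c6f_al.E4.Asm

/-!
MP_ee9c6f_al (helper40). The presentation of Wajnryb of the mapping class group of a closed surface
of genus `g ≥ 3`, in the form of Theorem 5.3 of the book of Farb and Margalit, *A primer on mapping
class groups*.
-/

set_option autoImplicit false

namespace Pool.Agent.H.MP_ee9c6f_al.Wajnryb

/-- The Humphries generators: `c g 1, …, c g (2 g)` are the twists about the curves of a chain,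
`c g 0` is the twist about a curve which meets the fourth curve of the chain once and is disjoint
from the others (`c g i = 1` for `2 g < i`; this value is not used). -/
def c (g i : ℕ) : FreeGroup (Fin (2 * g + 1)) :=
  if h : i < 2 * g + 1 then FreeGroup.of ⟨i, h⟩ else 1

/-- The curves with the numbers `i < j` meet (in one point). -/
def Meet (i j : ℕ) : Prop := (1 ≤ i ∧ i + 1 = j) ∨ (i = 0 ∧ j = 4)

/-- the twist about the second boundary curve of the chain `1, 2, 3` -/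
def b0 (g : ℕ) : FreeGroup (Fin (2 * g + 1)) :=
  (c g 4 * c g 3 * c g 2 * c g 1 * c g 1 * c g 2 * c g 3 * c g 4) * c g 0 *
    (c g 4 * c g 3 * c g 2 * c g 1 * c g 1 * c g 2 * c g 3 * c g 4)⁻¹

/-- the twist `b₁` -/
def b1 (g : ℕ) : FreeGroup (Fin (2 * g + 1)) :=
  (c g 4 * c g 5 * c g 3 * c g 4)⁻¹ * c g 0 * (c g 4 * c g 5 * c g 3 * c g 4)

/-- the twist `b₂` -/
def b2 (g : ℕ) : FreeGroup (Fin (2 * g + 1)) :=
  (c g 2 * c g 3 * c g 1 * c g 2)⁻¹ * b1 g * (c g 2 * c g 3 * c g 1 * c g 2)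

/-- the element `u` -/
def u (g : ℕ) : FreeGroup (Fin (2 * g + 1)) := (c g 6 * c g 5)⁻¹ * b1 g * (c g 6 * c g 5)

/-- the twist `b₃` -/
def b3 (g : ℕ) : FreeGroup (Fin (2 * g + 1)) :=
  (c g 6 * c g 5 * c g 4 * c g 3 * c g 2 * u g * (c g 1)⁻¹ * (c g 2)⁻¹ * (c g 3)⁻¹ * (c g 4)⁻¹) *
    c g 0 *
    (c g 6 * c g 5 * c g 4 * c g 3 * c g 2 * u g * (c g 1)⁻¹ * (c g 2)⁻¹ * (c g 3)⁻¹ * (c g 4)⁻¹)⁻¹

/-- the element `wᵢ`, where `n = nᵢ₊₁` -/
def w (g i : ℕ) (n : FreeGroup (Fin (2 * g + 1))) : FreeGroup (Fin (2 * g + 1)) :=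
  (c g (2 * i + 4) * c g (2 * i + 3) * c g (2 * i + 2) * n) *
    (c g (2 * i + 1) * c g (2 * i) * c g (2 * i + 2) * c g (2 * i + 1)) *
    (c g (2 * i + 3) * c g (2 * i + 2) * c g (2 * i + 4) * c g (2 * i + 3)) *
    (n * c g (2 * i + 2) * c g (2 * i + 1) * c g (2 * i))

/-- the twists `n₁ = c₁`, `n₂ = b₀`, `nᵢ₊₂ = wᵢ nᵢ wᵢ⁻¹` (the value at `0` is not used) -/
def n (g : ℕ) : ℕ → FreeGroup (Fin (2 * g + 1))
  | 0 => 1
  | 1 => c g 1
  | 2 => b0 g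
  | i + 3 => w g (i + 1) (n g (i + 2)) * n g (i + 1) * (w g (i + 1) (n g (i + 2)))⁻¹

/-- the element `c₂ᵍ ⋯ c₁ c₁ ⋯ c₂ᵍ` -/
def hyp (g : ℕ) : FreeGroup (Fin (2 * g + 1)) :=
  ((List.range (2 * g)).map fun k => c g (2 * g - k)).prod *
    ((List.range (2 * g)).map fun k => c g (k + 1)).prod

/-- the relators -/
def rels (g : ℕ) : Set (FreeGroup (Fin (2 * g + 1))) :=
  {r | ∃ i j : ℕ, i < j ∧ j ≤ 2 * g ∧ Meet i j ∧
      r = c g i * c g j * c g i * (c g j * c g i * c g j)⁻¹} ∪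
    {r | ∃ i j : ℕ, i < j ∧ j ≤ 2 * g ∧ ¬ Meet i j ∧ r = c g i * c g j * (c g j * c g i)⁻¹} ∪
    {(c g 1 * c g 2 * c g 3) ^ 4 * (c g 0 * b0 g)⁻¹,
      (c g 0 * b2 g * b1 g) * (c g 1 * c g 3 * c g 5 * b3 g)⁻¹,
      hyp g * n g g * (n g g * hyp g)⁻¹}

/-- The mapping class group of the closed surface of genus `g ≥ 3` (the presentation of Wajnryb). -/
abbrev Mod (g : ℕ) : Type := PresentedGroup (rels g)

theorem c4 (i : Fin 9) : c 4 i = E4.c i := by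
  fin_cases i <;> rfl

theorem b04 : b0 4 = E4.b0 := rfl

theorem b14 : b1 4 = E4.b1 := rfl

theorem b24 : b2 4 = E4.b2 := rfl

theorem b34 : b3 4 = E4.b3 := rfl

theorem n34 : n 4 3 = E4.n3 := rfl

theorem n44 : n 4 4 = E4.n4 := rfl

theorem rels4 : rels 4 = E4.modRels := by
  have h1 : hyp 4 = E4.c 8 * E4.c 7 * E4.c 6 * E4.c 5 * E4.c 4 * E4.c 3 * E4.c 2 * E4.c 1 * E4.c 1 *
      E4.c 2 * E4.c 3 * E4.c 4 * E4.c 5 * E4.c 6 * E4.c 7 * E4.c 8 := by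
    have e : hyp 4 = (c 4 8 * (c 4 7 * (c 4 6 * (c 4 5 * (c 4 4 * (c 4 3 * (c 4 2 * (c 4 1 * 1)))))))) *
      (c 4 1 * (c 4 2 * (c 4 3 * (c 4 4 * (c 4 5 * (c 4 6 * (c 4 7 * (c 4 8 * 1)))))))) := rfl
    rw [e]
    simp only [mul_one, mul_assoc]
    rfl
  have h2 : {r | ∃ i j : ℕ, i < j ∧ j ≤ 2 * 4 ∧ Meet i j ∧
      r = c 4 i * c 4 j * c 4 i * (c 4 j * c 4 i * c 4 j)⁻¹} = {r | ∃ i j : Fin 9, i < j ∧
      E4.Meet i j ∧ r = E4.c i * E4.c j * E4.c i * (E4.c j * E4.c i * E4.c j)⁻¹} := by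
    ext r
    constructor
    · rintro ⟨i, j, h1, h2, h3, h4⟩
      refine ⟨⟨i, by omega⟩, ⟨j, by omega⟩, h1, h3, ?_⟩
      rw [h4, ← c4, ← c4]
    · rintro ⟨i, j, h1, h2, h3⟩
      refine ⟨i, j, h1, by omega, h2, ?_⟩
      rw [h3, ← c4, ← c4]
  have h3 : {r | ∃ i j : ℕ, i < j ∧ j ≤ 2 * 4 ∧ ¬ Meet i j ∧
      r = c 4 i * c 4 j * (c 4 j * c 4 i)⁻¹} = {r | ∃ i j : Fin 9, i < j ∧
      ¬ E4.Meet i j ∧ r = E4.c i * E4.c j * (E4.c j * E4.c i)⁻¹} := by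
    ext r
    constructor
    · rintro ⟨i, j, h1, h2, h3, h4⟩
      refine ⟨⟨i, by omega⟩, ⟨j, by omega⟩, h1, h3, ?_⟩
      rw [h4, ← c4, ← c4]
    · rintro ⟨i, j, h1, h2, h3⟩
      refine ⟨i, j, h1, by omega, h2, ?_⟩
      rw [h3, ← c4, ← c4]
  unfold rels E4.modRels
  rw [h2, h3, h1, n44, b34, b24, b14, b04]
  rfl

theorem c3 (i : Fin 7) : c 3 i = E3.c i := by
  fin_cases i <;> rfl

theorem b03 : b0 3 = E3.b0 := rfl

theorem b13 : b1 3 = E3.b1 := rfl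

theorem b23 : b2 3 = E3.b2 := rfl

theorem b33 : b3 3 = E3.b3 := rfl

theorem n33 : n 3 3 = E3.n3 := rfl

theorem rels3 : rels 3 = E3.modRels := by
  have h1 : hyp 3 = E3.c 6 * E3.c 5 * E3.c 4 * E3.c 3 * E3.c 2 * E3.c 1 * E3.c 1 *
      E3.c 2 * E3.c 3 * E3.c 4 * E3.c 5 * E3.c 6 := by
    have e : hyp 3 = (c 3 6 * (c 3 5 * (c 3 4 * (c 3 3 * (c 3 2 * (c 3 1 * 1)))))) *
      (c 3 1 * (c 3 2 * (c 3 3 * (c 3 4 * (c 3 5 * (c 3 6 * 1)))))) := rfl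
    rw [e]
    simp only [mul_one, mul_assoc]
    rfl
  have h2 : {r | ∃ i j : ℕ, i < j ∧ j ≤ 2 * 3 ∧ Meet i j ∧
      r = c 3 i * c 3 j * c 3 i * (c 3 j * c 3 i * c 3 j)⁻¹} = {r | ∃ i j : Fin 7, i < j ∧
      E3.Meet i j ∧ r = E3.c i * E3.c j * E3.c i * (E3.c j * E3.c i * E3.c j)⁻¹} := by
    ext r
    constructor
    · rintro ⟨i, j, h1, h2, h3, h4⟩
      refine ⟨⟨i, by omega⟩, ⟨j, by omega⟩, h1, h3, ?_⟩
      rw [h4, ← c3, ← c3]
    · rintro ⟨i, j, h1, h2, h3⟩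
      refine ⟨i, j, h1, by omega, h2, ?_⟩
      rw [h3, ← c3, ← c3]
  have h3 : {r | ∃ i j : ℕ, i < j ∧ j ≤ 2 * 3 ∧ ¬ Meet i j ∧
      r = c 3 i * c 3 j * (c 3 j * c 3 i)⁻¹} = {r | ∃ i j : Fin 7, i < j ∧
      ¬ E3.Meet i j ∧ r = E3.c i * E3.c j * (E3.c j * E3.c i)⁻¹} := by
    ext r
    constructor
    · rintro ⟨i, j, h1, h2, h3, h4⟩
      refine ⟨⟨i, by omega⟩, ⟨j, by omega⟩, h1, h3, ?_⟩
      rw [h4, ← c3, ← c3]
    · rintro ⟨i, j, h1, h2, h3⟩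
      refine ⟨i, j, h1, by omega, h2, ?_⟩
      rw [h3, ← c3, ← c3]
  unfold rels E3.modRels
  rw [h2, h3, h1, n33, b33, b23, b13, b03]
  rfl

/-- `G` has a normal subgroup `M` of finite index and a homomorphism `f` of `M` onto `ℤ` with finitely
generated kernel, and the number of relative ends of the kernel is `2`. -/
def TwoEnds (G : Type) [Group G] : Prop :=
  ∃ M : Subgroup G, M.Normal ∧ M.FiniteIndex ∧ ∃ f : M →* Multiplicative ℤ,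
    Function.Surjective f ∧ (f.ker.map M.subtype).FG ∧
      ∀ S : Set G, S.Finite → Subgroup.closure S = ⊤ → relEnds S (f.ker.map M.subtype) = 2

/-- Transfer along an equality of the sets of relators. -/
theorem transfer {α : Type} {r r' : Set (FreeGroup α)} (h : r = r')
    (H : TwoEnds (PresentedGroup r')) : TwoEnds (PresentedGroup r) := by
  subst h
  exact H

theorem two_four (H : TwoEnds E4.Mod4) : TwoEnds (Mod 4) := transfer rels4 H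

theorem two_three (H : TwoEnds E3.Mod3) : TwoEnds (Mod 3) := transfer rels3 H

end Pool.Agent.H.MP_ee9c6f_al.Wajnryb
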