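import Mathlib

/-!
MP_ee9c6f_al / E4 (helper38). Computations in a group generated by elements `a 0, …, a 8` satisfying
the relations of the presentation of the mapping class group of genus 4 (Wajnryb; Farb and Margalit,
Theorem 5.3): braid relations, 3-chain relation, lantern relation.

`z = (a₀ b₁⁻¹)³`; there is a finite generating set whose elements `s` satisfy
`Commute z (s z s⁻¹)`.
-/

set_option autoImplicit false

namespace Pool.Agent.H.MP_ee9c6f_al.E4.W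

section

variable {G : Type*} [Group G]

/-- Braid and commutation relations. The curve `a₀` meets `a₄` only. -/
structure Braids (a : Fin 9 → G) : Prop where
  b04 : a 0 * a 4 * a 0 = a 4 * a 0 * a 4
  b12 : a 1 * a 2 * a 1 = a 2 * a 1 * a 2
  b23 : a 2 * a 3 * a 2 = a 3 * a 2 * a 3
  b34 : a 3 * a 4 * a 3 = a 4 * a 3 * a 4
  b45 : a 4 * a 5 * a 4 = a 5 * a 4 * a 5
  b56 : a 5 * a 6 * a 5 = a 6 * a 5 * a 6
  b67 : a 6 * a 7 * a 6 = a 7 * a 6 * a 7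
  b78 : a 7 * a 8 * a 7 = a 8 * a 7 * a 8
  c01 : Commute (a 0) (a 1)
  c02 : Commute (a 0) (a 2)
  c03 : Commute (a 0) (a 3)
  c05 : Commute (a 0) (a 5)
  c06 : Commute (a 0) (a 6)
  c07 : Commute (a 0) (a 7)
  c08 : Commute (a 0) (a 8)
  c13 : Commute (a 1) (a 3)
  c14 : Commute (a 1) (a 4)
  c15 : Commute (a 1) (a 5)
  c16 : Commute (a 1) (a 6)
  c17 : Commute (a 1) (a 7)
  c18 : Commute (a 1) (a 8)
  c24 : Commute (a 2) (a 4)
  c25 : Commute (a 2) (a 5)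
  c26 : Commute (a 2) (a 6)
  c27 : Commute (a 2) (a 7)
  c28 : Commute (a 2) (a 8)
  c35 : Commute (a 3) (a 5)
  c36 : Commute (a 3) (a 6)
  c37 : Commute (a 3) (a 7)
  c38 : Commute (a 3) (a 8)
  c46 : Commute (a 4) (a 6)
  c47 : Commute (a 4) (a 7)
  c48 : Commute (a 4) (a 8)
  c57 : Commute (a 5) (a 7)
  c58 : Commute (a 5) (a 8)
  c68 : Commute (a 6) (a 8)

/-- `t₁ = a₂ a₃ a₁ a₂` exchanges `a₁` and `a₃`. -/
def t1 (a : Fin 9 → G) : G := a 2 * a 3 * a 1 * a 2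
/-- `t₂ = a₄ a₅ a₃ a₄` exchanges `a₃` and `a₅`. -/
def t2 (a : Fin 9 → G) : G := a 4 * a 5 * a 3 * a 4
/-- `t₃ = a₆ a₇ a₅ a₆` exchanges `a₅` and `a₇`. -/
def t3 (a : Fin 9 → G) : G := a 6 * a 7 * a 5 * a 6
/-- `A₅ = a₄ a₃ a₂ a₁ a₁ a₂ a₃ a₄`. -/
def A5 (a : Fin 9 → G) : G := a 4 * a 3 * a 2 * a 1 * a 1 * a 2 * a 3 * a 4
/-- `b₀ = A₅ a₀ A₅⁻¹`. -/
def b0 (a : Fin 9 → G) : G := A5 a * a 0 * (A5 a)⁻¹
/-- `b₁ = t₂⁻¹ a₀ t₂`. -/
def b1 (a : Fin 9 → G) : G := (t2 a)⁻¹ * a 0 * t2 a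
/-- `b₂ = t₁⁻¹ b₁ t₁`. -/
def b2 (a : Fin 9 → G) : G := (t1 a)⁻¹ * b1 a * t1 a
/-- `u = (a₆ a₅)⁻¹ b₁ (a₆ a₅)`. -/
def uu (a : Fin 9 → G) : G := (a 6 * a 5)⁻¹ * b1 a * (a 6 * a 5)
/-- `v = a₆ a₅ a₄ a₃ a₂ u a₁⁻¹ a₂⁻¹ a₃⁻¹ a₄⁻¹`. -/
def vv (a : Fin 9 → G) : G :=
  a 6 * a 5 * a 4 * a 3 * a 2 * uu a * (a 1)⁻¹ * (a 2)⁻¹ * (a 3)⁻¹ * (a 4)⁻¹
/-- `b₃ = v a₀ v⁻¹`. -/
def b3 (a : Fin 9 → G) : G := vv a * a 0 * (vv a)⁻¹
/-- The element `z`. -/
def zz (a : Fin 9 → G) : G := (a 0 * (b1 a)⁻¹) ^ 3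
/-- `ι = a₆ a₅ A₅ a₅ a₆`. -/
def io (a : Fin 9 → G) : G := a 6 * a 5 * A5 a * (a 5 * a 6)

/-! ### General lemmas -/

theorem sb_braid {x y : G} (h : x * y * x = y * x * y) : SemiconjBy (x * y) x y := by
  change x * y * x = y * (x * y)
  rw [h, mul_assoc]

theorem sb_inv {g x y : G} (h : SemiconjBy g x y) : SemiconjBy g⁻¹ y x := h.inv_symm_left

theorem sb_cj {g x y : G} (h : SemiconjBy g x y) : g * x * g⁻¹ = y := by
  rw [h.eq, mul_inv_cancel_right]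

theorem sb_of_cj {g x y : G} (h : g * x * g⁻¹ = y) : SemiconjBy g x y := by
  change g * x = y * g
  rw [← h]; group

theorem sb_cm {g x : G} (h : Commute g x) : SemiconjBy g x x := h

/-- transport of a commutation -/
theorem cm_of_sb {g x y x' y' : G} (hx : SemiconjBy g x x') (hy : SemiconjBy g y y')
    (h : Commute x y) : Commute x' y' := by
  rw [← sb_cj hx, ← sb_cj hy]
  exact (Commute.conj_iff g).2 h

theorem sb_cj_self (g x : G) : SemiconjBy g x (g * x * g⁻¹) := by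
  change g * x = g * x * g⁻¹ * g
  group

theorem sb_cji_self (g x : G) : SemiconjBy g (g⁻¹ * x * g) x := by
  change g * (g⁻¹ * x * g) = x * g
  group

variable {a : Fin 9 → G}

/-! ### Consequences of the braid relations -/

namespace Braids

variable (h : Braids a)

include h

theorem t1_1 : SemiconjBy (t1 a) (a 1) (a 3) := by
  have e : t1 a = (a 2 * a 3) * (a 1 * a 2) := by simp [t1, mul_assoc]
  rw [e]
  exact (sb_braid h.b23).mul_left (sb_braid h.b12)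

theorem t1_3 : SemiconjBy (t1 a) (a 3) (a 1) := by
  have e : t1 a = (a 2 * a 1) * (a 3 * a 2) := by
    simp only [t1, mul_assoc, h.c13.left_comm]
  rw [e]
  exact (sb_braid h.b12.symm).mul_left (sb_braid h.b23.symm)

theorem t2_3 : SemiconjBy (t2 a) (a 3) (a 5) := by
  have e : t2 a = (a 4 * a 5) * (a 3 * a 4) := by simp [t2, mul_assoc]
  rw [e]
  exact (sb_braid h.b45).mul_left (sb_braid h.b34)

theorem t2_5 : SemiconjBy (t2 a) (a 5) (a 3) := by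
  have e : t2 a = (a 4 * a 3) * (a 5 * a 4) := by
    simp only [t2, mul_assoc, h.c35.left_comm]
  rw [e]
  exact (sb_braid h.b34.symm).mul_left (sb_braid h.b45.symm)

theorem t1_0 : Commute (t1 a) (a 0) :=
  (((h.c02.symm.mul_left h.c03.symm).mul_left h.c01.symm).mul_left h.c02.symm)

theorem t3_0 : Commute (t3 a) (a 0) :=
  (((h.c06.symm.mul_left h.c07.symm).mul_left h.c05.symm).mul_left h.c06.symm)

theorem t1_5 : Commute (t1 a) (a 5) :=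
  (((h.c25.mul_left h.c35).mul_left h.c15).mul_left h.c25)

theorem t2_1 : Commute (t2 a) (a 1) :=
  (((h.c14.symm.mul_left h.c15.symm).mul_left h.c13.symm).mul_left h.c14.symm)

theorem t2_7 : Commute (t2 a) (a 7) :=
  (((h.c47.mul_left h.c57).mul_left h.c37).mul_left h.c47)

theorem t2_8 : Commute (t2 a) (a 8) :=
  (((h.c48.mul_left h.c58).mul_left h.c38).mul_left h.c48)

/-- The shift `a₁ a₂ a₃ a₄`. -/
theorem sh1 : SemiconjBy (a 1 * a 2 * a 3 * a 4) (a 1) (a 2) := by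
  have e : a 1 * a 2 * a 3 * a 4 = (a 1 * a 2) * (a 3 * a 4) := by simp [mul_assoc]
  rw [e]
  exact (sb_braid h.b12).mul_left (h.c13.symm.mul_left h.c14.symm)

theorem sh2 : SemiconjBy (a 1 * a 2 * a 3 * a 4) (a 2) (a 3) := by
  have e : a 1 * a 2 * a 3 * a 4 = a 1 * ((a 2 * a 3) * a 4) := by simp [mul_assoc]
  rw [e]
  exact SemiconjBy.mul_left h.c13 ((sb_braid h.b23).mul_left h.c24.symm)

theorem sh3 : SemiconjBy (a 1 * a 2 * a 3 * a 4) (a 3) (a 4) := by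
  have e : a 1 * a 2 * a 3 * a 4 = (a 1 * a 2) * (a 3 * a 4) := by simp [mul_assoc]
  rw [e]
  exact SemiconjBy.mul_left (h.c14.mul_left h.c24) (sb_braid h.b34)

theorem sh2' : SemiconjBy (a 2 * a 3 * a 4 * a 5) (a 2) (a 3) := by
  have e : a 2 * a 3 * a 4 * a 5 = (a 2 * a 3) * (a 4 * a 5) := by simp [mul_assoc]
  rw [e]
  exact (sb_braid h.b23).mul_left (h.c24.symm.mul_left h.c25.symm)

theorem sh3' : SemiconjBy (a 2 * a 3 * a 4 * a 5) (a 3) (a 4) := by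
  have e : a 2 * a 3 * a 4 * a 5 = a 2 * ((a 3 * a 4) * a 5) := by simp [mul_assoc]
  rw [e]
  exact SemiconjBy.mul_left h.c24 ((sb_braid h.b34).mul_left h.c35.symm)

theorem sh4' : SemiconjBy (a 2 * a 3 * a 4 * a 5) (a 4) (a 5) := by
  have e : a 2 * a 3 * a 4 * a 5 = (a 2 * a 3) * (a 4 * a 5) := by simp [mul_assoc]
  rw [e]
  exact SemiconjBy.mul_left (h.c25.mul_left h.c35) (sb_braid h.b45)

theorem t1t2 : t1 a * t2 a = (a 2 * a 3 * a 4 * a 5) * (a 1 * a 2 * a 3 * a 4) := by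
  simp only [t1, t2, mul_assoc]
  rw [h.c15.symm.left_comm, h.c14.symm.left_comm, h.c25.symm.left_comm, h.c24.symm.left_comm]

theorem T_1 : SemiconjBy (t1 a * t2 a) (a 1) (a 3) := h.t1t2 ▸ h.sh2'.mul_left h.sh1

theorem T_2 : SemiconjBy (t1 a * t2 a) (a 2) (a 4) := h.t1t2 ▸ h.sh3'.mul_left h.sh2

theorem T_3 : SemiconjBy (t1 a * t2 a) (a 3) (a 5) := h.t1t2 ▸ h.sh4'.mul_left h.sh3

/-- The braid relation of `t₁` and `t₂`. -/
theorem tbr : SemiconjBy (t1 a * t2 a) (t1 a) (t2 a) := by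
  change SemiconjBy (t1 a * t2 a) (a 2 * a 3 * a 1 * a 2) (a 4 * a 5 * a 3 * a 4)
  exact ((h.T_2.mul_right h.T_3).mul_right h.T_1).mul_right h.T_2

theorem tbr' : t1 a * t2 a * t1 a = t2 a * t1 a * t2 a := by
  rw [h.tbr.eq, mul_assoc]

/-! The shift by two of `a₃, a₄, a₅`. -/

theorem shb3 : SemiconjBy (a 3 * a 4 * a 5 * a 6) (a 3) (a 4) := by
  have e : a 3 * a 4 * a 5 * a 6 = (a 3 * a 4) * (a 5 * a 6) := by simp [mul_assoc]
  rw [e]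
  exact (sb_braid h.b34).mul_left (h.c35.symm.mul_left h.c36.symm)

theorem shb4 : SemiconjBy (a 3 * a 4 * a 5 * a 6) (a 4) (a 5) := by
  have e : a 3 * a 4 * a 5 * a 6 = a 3 * ((a 4 * a 5) * a 6) := by simp [mul_assoc]
  rw [e]
  exact SemiconjBy.mul_left h.c35 ((sb_braid h.b45).mul_left h.c46.symm)

theorem shb5 : SemiconjBy (a 3 * a 4 * a 5 * a 6) (a 5) (a 6) := by
  have e : a 3 * a 4 * a 5 * a 6 = (a 3 * a 4) * (a 5 * a 6) := by simp [mul_assoc]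
  rw [e]
  exact SemiconjBy.mul_left (h.c36.mul_left h.c46) (sb_braid h.b56)

theorem shc4 : SemiconjBy (a 4 * a 5 * a 6 * a 7) (a 4) (a 5) := by
  have e : a 4 * a 5 * a 6 * a 7 = (a 4 * a 5) * (a 6 * a 7) := by simp [mul_assoc]
  rw [e]
  exact (sb_braid h.b45).mul_left (h.c46.symm.mul_left h.c47.symm)

theorem shc5 : SemiconjBy (a 4 * a 5 * a 6 * a 7) (a 5) (a 6) := by
  have e : a 4 * a 5 * a 6 * a 7 = a 4 * ((a 5 * a 6) * a 7) := by simp [mul_assoc]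
  rw [e]
  exact SemiconjBy.mul_left h.c46 ((sb_braid h.b56).mul_left h.c57.symm)

theorem shc6 : SemiconjBy (a 4 * a 5 * a 6 * a 7) (a 6) (a 7) := by
  have e : a 4 * a 5 * a 6 * a 7 = (a 4 * a 5) * (a 6 * a 7) := by simp [mul_assoc]
  rw [e]
  exact SemiconjBy.mul_left (h.c47.mul_left h.c57) (sb_braid h.b67)

theorem t2t3 : t2 a * t3 a = (a 4 * a 5 * a 6 * a 7) * (a 3 * a 4 * a 5 * a 6) := by
  simp only [t2, t3, mul_assoc]
  rw [h.c37.symm.left_comm, h.c36.symm.left_comm, h.c47.symm.left_comm, h.c46.symm.left_comm]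

theorem U_3 : SemiconjBy (t2 a * t3 a) (a 3) (a 5) := h.t2t3 ▸ h.shc4.mul_left h.shb3

theorem U_4 : SemiconjBy (t2 a * t3 a) (a 4) (a 6) := h.t2t3 ▸ h.shc5.mul_left h.shb4

theorem U_5 : SemiconjBy (t2 a * t3 a) (a 5) (a 7) := h.t2t3 ▸ h.shc6.mul_left h.shb5

/-- The braid relation of `t₂` and `t₃`. -/
theorem tbr23 : t2 a * t3 a * t2 a = t3 a * t2 a * t3 a := by
  have : SemiconjBy (t2 a * t3 a) (t2 a) (t3 a) := by
    change SemiconjBy (t2 a * t3 a) (a 4 * a 5 * a 3 * a 4) (a 6 * a 7 * a 5 * a 6)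
    exact ((h.U_4.mul_right h.U_5).mul_right h.U_3).mul_right h.U_4
  rw [this.eq, mul_assoc]

/-! ### The element `A₅` -/

theorem dn2 : SemiconjBy (a 4 * a 3 * a 2 * a 1) (a 2) (a 1) := by
  have e : a 4 * a 3 * a 2 * a 1 = (a 4 * a 3) * (a 2 * a 1) := by simp [mul_assoc]
  rw [e]
  exact SemiconjBy.mul_left (h.c14.symm.mul_left h.c13.symm) (sb_braid h.b12.symm)

theorem dn3 : SemiconjBy (a 4 * a 3 * a 2 * a 1) (a 3) (a 2) := by
  have e : a 4 * a 3 * a 2 * a 1 = a 4 * ((a 3 * a 2) * a 1) := by simp [mul_assoc]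
  rw [e]
  exact SemiconjBy.mul_left h.c24.symm ((sb_braid h.b23.symm).mul_left h.c13)

theorem dn4 : SemiconjBy (a 4 * a 3 * a 2 * a 1) (a 4) (a 3) := by
  have e : a 4 * a 3 * a 2 * a 1 = (a 4 * a 3) * (a 2 * a 1) := by simp [mul_assoc]
  rw [e]
  exact (sb_braid h.b34.symm).mul_left (h.c24.mul_left h.c14)

omit h in
theorem A5_eq : A5 a = (a 4 * a 3 * a 2 * a 1) * (a 1 * a 2 * a 3 * a 4) := by
  simp [A5, mul_assoc]

theorem A5_1 : Commute (A5 a) (a 1) := A5_eq (a := a) ▸ h.dn2.mul_left h.sh1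

theorem A5_2 : Commute (A5 a) (a 2) := A5_eq (a := a) ▸ h.dn3.mul_left h.sh2

theorem A5_3 : Commute (A5 a) (a 3) := A5_eq (a := a) ▸ h.dn4.mul_left h.sh3

theorem b0_1 : Commute (b0 a) (a 1) :=
  cm_of_sb (sb_cj_self (A5 a) (a 0)) h.A5_1 h.c01

theorem b0_2 : Commute (b0 a) (a 2) :=
  cm_of_sb (sb_cj_self (A5 a) (a 0)) h.A5_2 h.c02

theorem b0_3 : Commute (b0 a) (a 3) :=
  cm_of_sb (sb_cj_self (A5 a) (a 0)) h.A5_3 h.c03

/-! `Q = a₁ a₂ a₃ a₄ a₅` -/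

theorem Q1 : SemiconjBy (a 1 * a 2 * a 3 * a 4 * a 5) (a 1) (a 2) :=
  h.sh1.mul_left h.c15.symm

theorem Q2 : SemiconjBy (a 1 * a 2 * a 3 * a 4 * a 5) (a 2) (a 3) :=
  h.sh2.mul_left h.c25.symm

theorem Q3 : SemiconjBy (a 1 * a 2 * a 3 * a 4 * a 5) (a 3) (a 4) :=
  h.sh3.mul_left h.c35.symm

theorem Q4 : SemiconjBy (a 1 * a 2 * a 3 * a 4 * a 5) (a 4) (a 5) := by
  have e : a 1 * a 2 * a 3 * a 4 * a 5 = (a 1 * (a 2 * a 3)) * (a 4 * a 5) := by simp [mul_assoc]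
  rw [e]
  exact SemiconjBy.mul_left (h.c15.mul_left (h.c25.mul_left h.c35)) (sb_braid h.b45)

theorem t2t1 : t2 a * t1 a = (a 4 * a 3 * a 2 * a 1) * (a 5 * a 4 * a 3 * a 2) := by
  simp only [t1, t2, mul_assoc]
  rw [h.c15.left_comm, h.c25.left_comm, h.c35.left_comm, h.c14.left_comm, h.c24.left_comm,
    h.c13.left_comm]

theorem tttt : t2 a * t1 a * (t1 a * t2 a) * a 5 = A5 a * a 5 * A5 a := by
  set Q := a 1 * a 2 * a 3 * a 4 * a 5 with hQ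
  set X := a 4 * a 3 * a 2 * a 1 with hX
  set Xb := a 1 * a 2 * a 3 * a 4 with hXb
  have e1 : SemiconjBy Q X (a 5 * a 4 * a 3 * a 2) :=
    ((h.Q4.mul_right h.Q3).mul_right h.Q2).mul_right h.Q1
  have e2 : SemiconjBy Q Xb (a 2 * a 3 * a 4 * a 5) :=
    ((h.Q1.mul_right h.Q2).mul_right h.Q3).mul_right h.Q4
  have e4 : A5 a = X * Xb := A5_eq
  have e5 : t2 a * t1 a = X * (a 5 * a 4 * a 3 * a 2) := h.t2t1
  have e6 : t1 a * t2 a = (a 2 * a 3 * a 4 * a 5) * Xb := h.t1t2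
  rw [e4, e5, e6]
  have e3 : Xb * a 5 = Q := rfl
  calc X * (a 5 * a 4 * a 3 * a 2) * ((a 2 * a 3 * a 4 * a 5) * Xb) * a 5
      = X * ((a 5 * a 4 * a 3 * a 2) * ((a 2 * a 3 * a 4 * a 5) * (Xb * a 5))) := by
        simp only [mul_assoc]
    _ = X * ((a 5 * a 4 * a 3 * a 2) * ((a 2 * a 3 * a 4 * a 5) * Q)) := by rw [e3]
    _ = X * ((a 5 * a 4 * a 3 * a 2) * (Q * Xb)) := by rw [← e2.eq]
    _ = X * ((a 5 * a 4 * a 3 * a 2) * Q * Xb) := by simp only [mul_assoc]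
    _ = X * (Q * X * Xb) := by rw [← e1.eq]
    _ = X * (Xb * a 5 * X * Xb) := by rw [e3]
    _ = X * Xb * a 5 * (X * Xb) := by simp only [mul_assoc]

/-! ### The element `ι` -/

theorem Qb1 : SemiconjBy (a 1 * a 2 * a 3 * a 4 * a 5 * a 6) (a 1) (a 2) :=
  h.Q1.mul_left h.c16.symm

theorem Qb2 : SemiconjBy (a 1 * a 2 * a 3 * a 4 * a 5 * a 6) (a 2) (a 3) :=
  h.Q2.mul_left h.c26.symm

theorem Qb3 : SemiconjBy (a 1 * a 2 * a 3 * a 4 * a 5 * a 6) (a 3) (a 4) :=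
  h.Q3.mul_left h.c36.symm

theorem Qb4 : SemiconjBy (a 1 * a 2 * a 3 * a 4 * a 5 * a 6) (a 4) (a 5) :=
  h.Q4.mul_left h.c46.symm

theorem Qb5 : SemiconjBy (a 1 * a 2 * a 3 * a 4 * a 5 * a 6) (a 5) (a 6) := by
  have e : a 1 * a 2 * a 3 * a 4 * a 5 * a 6 = (a 1 * a 2 * (a 3 * a 4)) * (a 5 * a 6) := by
    simp [mul_assoc]
  rw [e]
  exact SemiconjBy.mul_left ((h.c16.mul_left h.c26).mul_left (h.c36.mul_left h.c46))
    (sb_braid h.b56)

theorem Qd2 : SemiconjBy (a 6 * a 5 * (a 4 * a 3 * a 2 * a 1)) (a 2) (a 1) :=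
  SemiconjBy.mul_left (h.c16.symm.mul_left h.c15.symm) h.dn2

theorem Qd3 : SemiconjBy (a 6 * a 5 * (a 4 * a 3 * a 2 * a 1)) (a 3) (a 2) :=
  SemiconjBy.mul_left (h.c26.symm.mul_left h.c25.symm) h.dn3

theorem Qd4 : SemiconjBy (a 6 * a 5 * (a 4 * a 3 * a 2 * a 1)) (a 4) (a 3) :=
  SemiconjBy.mul_left (h.c36.symm.mul_left h.c35.symm) h.dn4

theorem Qd5 : SemiconjBy (a 6 * a 5 * (a 4 * a 3 * a 2 * a 1)) (a 5) (a 4) := by
  have e : a 6 * a 5 * (a 4 * a 3 * a 2 * a 1) = a 6 * ((a 5 * a 4) * (a 3 * a 2 * a 1)) := by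
    simp [mul_assoc]
  rw [e]
  exact SemiconjBy.mul_left h.c46.symm ((sb_braid h.b45.symm).mul_left
    ((h.c35.mul_left h.c25).mul_left h.c15))

theorem Qd6 : SemiconjBy (a 6 * a 5 * (a 4 * a 3 * a 2 * a 1)) (a 6) (a 5) :=
  (sb_braid h.b56.symm).mul_left (((h.c46.mul_left h.c36).mul_left h.c26).mul_left h.c16)

omit h in
theorem io_eq : io a =
    (a 6 * a 5 * (a 4 * a 3 * a 2 * a 1)) * (a 1 * a 2 * a 3 * a 4 * a 5 * a 6) := by
  simp [io, A5, mul_assoc]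

theorem io_1 : Commute (io a) (a 1) := io_eq (a := a) ▸ h.Qd2.mul_left h.Qb1

theorem io_2 : Commute (io a) (a 2) := io_eq (a := a) ▸ h.Qd3.mul_left h.Qb2

theorem io_3 : Commute (io a) (a 3) := io_eq (a := a) ▸ h.Qd4.mul_left h.Qb3

theorem io_4 : Commute (io a) (a 4) := io_eq (a := a) ▸ h.Qd5.mul_left h.Qb4

theorem io_5 : Commute (io a) (a 5) := io_eq (a := a) ▸ h.Qd6.mul_left h.Qb5

theorem io_t1 : Commute (io a) (t1 a) :=
  ((h.io_2.mul_right h.io_3).mul_right h.io_1).mul_right h.io_2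

theorem io_t2 : Commute (io a) (t2 a) :=
  ((h.io_4.mul_right h.io_5).mul_right h.io_3).mul_right h.io_4

/-! ### Commutations of `b₁` and `b₂` with the odd generators -/

omit h in
theorem b1_sb : SemiconjBy (t2 a) (b1 a) (a 0) := sb_cji_self _ _

omit h in
theorem b2_sb : SemiconjBy (t1 a) (b2 a) (b1 a) := sb_cji_self _ _

theorem b1_1 : Commute (b1 a) (a 1) :=
  cm_of_sb (sb_inv b1_sb) (sb_inv h.t2_1) h.c01

theorem b1_3 : Commute (b1 a) (a 3) :=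
  cm_of_sb (sb_inv b1_sb) (sb_inv h.t2_3) h.c05

theorem b1_5 : Commute (b1 a) (a 5) :=
  cm_of_sb (sb_inv b1_sb) (sb_inv h.t2_5) h.c03

theorem b1_7 : Commute (b1 a) (a 7) :=
  cm_of_sb (sb_inv b1_sb) (sb_inv h.t2_7) h.c07

theorem b1_8 : Commute (b1 a) (a 8) :=
  cm_of_sb (sb_inv b1_sb) (sb_inv h.t2_8) h.c08

theorem b2_1 : Commute (b2 a) (a 1) :=
  cm_of_sb (sb_inv b2_sb) (sb_inv h.t1_1) h.b1_3

theorem b2_3 : Commute (b2 a) (a 3) :=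
  cm_of_sb (sb_inv b2_sb) (sb_inv h.t1_3) h.b1_1

theorem b2_5 : Commute (b2 a) (a 5) :=
  cm_of_sb (sb_inv b2_sb) (sb_inv h.t1_5) h.b1_5

/-! ### `b₃` commutes with `a₂` and `a₄` -/

theorem uu_3 : Commute (uu a) (a 3) := by
  have : Commute (a 6 * a 5) (a 3) := h.c36.symm.mul_left h.c35.symm
  exact ((this.inv_left.mul_left h.b1_3).mul_left this)

theorem vv_2 : Commute (vv a) (a 2) := by
  have e1 : SemiconjBy (a 6 * a 5 * a 4 * a 3 * a 2) (a 3) (a 2) := by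
    have e : a 6 * a 5 * a 4 * a 3 * a 2 = (a 6 * a 5 * a 4) * (a 3 * a 2) := by simp [mul_assoc]
    rw [e]
    exact SemiconjBy.mul_left ((h.c26.symm.mul_left h.c25.symm).mul_left h.c24.symm)
      (sb_braid h.b23.symm)
  have e2 : SemiconjBy ((a 1)⁻¹ * (a 2)⁻¹ * (a 3)⁻¹ * (a 4)⁻¹) (a 2) (a 3) := by
    have := sb_inv h.dn3
    have e : (a 4 * a 3 * a 2 * a 1)⁻¹ = (a 1)⁻¹ * (a 2)⁻¹ * (a 3)⁻¹ * (a 4)⁻¹ := by
      simp [mul_assoc]
    rwa [e] at this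
  have e : vv a = (a 6 * a 5 * a 4 * a 3 * a 2) * (uu a *
    ((a 1)⁻¹ * (a 2)⁻¹ * (a 3)⁻¹ * (a 4)⁻¹)) := by simp [vv, mul_assoc]
  rw [e]
  exact SemiconjBy.mul_left e1 (SemiconjBy.mul_left h.uu_3 e2)

end Braids

end

end Pool.Agent.H.MP_ee9c6f_al.E4.W
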