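import Mathlib
import Pool.Agent.H.MP_ee9c6f_al.E4.Words

/-!
MP_ee9c6f_al / E4 (helper38). Consequences of the braid, 3-chain and lantern relations (second
part): the element `z` and the generating set.
-/

set_option autoImplicit false

namespace Pool.Agent.H.MP_ee9c6f_al.E4.W

section

variable {G : Type*} [Group G]

theorem braid_of_sb {g x y x' y' : G} (hx : SemiconjBy g x x') (hy : SemiconjBy g y y')
    (h : x * y * x = y * x * y) : x' * y' * x' = y' * x' * y' := by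
  rw [← sb_cj hx, ← sb_cj hy]
  have e1 : g * x * g⁻¹ * (g * y * g⁻¹) * (g * x * g⁻¹) = g * (x * y * x) * g⁻¹ := by group
  have e2 : g * y * g⁻¹ * (g * x * g⁻¹) * (g * y * g⁻¹) = g * (y * x * y) * g⁻¹ := by group
  rw [e1, e2, h]

/-- `x y x⁻¹ = y⁻¹ x y` -/
theorem br_cj {x y : G} (h : x * y * x = y * x * y) : x * y * x⁻¹ = y⁻¹ * x * y := by
  have : y * (x * y * x⁻¹) * x = y * (y⁻¹ * x * y) * x := by
    calc y * (x * y * x⁻¹) * x = y * x * y := by group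
      _ = x * y * x := h.symm
      _ = y * (y⁻¹ * x * y) * x := by group
  exact mul_left_cancel (mul_right_cancel this)

/-- `x⁻¹ y x = y x y⁻¹` -/
theorem br_cj' {x y : G} (h : x * y * x = y * x * y) : x⁻¹ * y * x = y * x * y⁻¹ :=
  (br_cj h.symm).symm

variable {a : Fin 9 → G}

namespace Braids

variable (h : Braids a)

include h

/-- `b₁` and `a₆` satisfy the braid relation. -/
theorem br_b1_6 : b1 a * a 6 * b1 a = a 6 * b1 a * a 6 := by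
  have hy : SemiconjBy (t2 a) (a 6) ((a 5 * a 6)⁻¹ * a 4 * (a 5 * a 6)) := by
    apply sb_of_cj
    have e1 : t2 a * a 6 * (t2 a)⁻¹ = a 4 * (a 5 * a 6 * (a 5)⁻¹) * (a 4)⁻¹ := by
      have : SemiconjBy (a 3 * a 4) (a 6) (a 6) := h.c36.mul_left h.c46
      calc t2 a * a 6 * (t2 a)⁻¹ = (a 4 * a 5) * ((a 3 * a 4) * a 6 * (a 3 * a 4)⁻¹) *
            (a 4 * a 5)⁻¹ := by simp only [t2]; group
        _ = (a 4 * a 5) * a 6 * (a 4 * a 5)⁻¹ := by rw [sb_cj this]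
        _ = _ := by group
    have e2 : a 4 * (a 6)⁻¹ = (a 6)⁻¹ * a 4 := (h.c46.inv_right).eq
    have e3 : a 6 * (a 4)⁻¹ = (a 4)⁻¹ * a 6 := (h.c46.symm.inv_right).eq
    rw [e1, br_cj h.b56]
    calc a 4 * ((a 6)⁻¹ * a 5 * a 6) * (a 4)⁻¹
        = (a 4 * (a 6)⁻¹) * a 5 * (a 6 * (a 4)⁻¹) := by group
      _ = ((a 6)⁻¹ * a 4) * a 5 * ((a 4)⁻¹ * a 6) := by rw [e2, e3]
      _ = (a 6)⁻¹ * (a 4 * a 5 * (a 4)⁻¹) * a 6 := by group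
      _ = (a 6)⁻¹ * ((a 5)⁻¹ * a 4 * a 5) * a 6 := by rw [br_cj h.b45]
      _ = _ := by group
  have h0 : SemiconjBy ((a 5 * a 6)⁻¹) (a 0) (a 0) := (h.c05.symm.mul_left h.c06.symm).inv_left
  have h4 : SemiconjBy ((a 5 * a 6)⁻¹) (a 4) ((a 5 * a 6)⁻¹ * a 4 * (a 5 * a 6)) := by
    have := sb_cj_self ((a 5 * a 6)⁻¹) (a 4)
    rwa [inv_inv] at this
  have h5 := braid_of_sb h0 h4 h.b04
  exact braid_of_sb (sb_inv b1_sb) (sb_inv hy) h5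

theorem uu_5 : SemiconjBy (uu a) ((a 6)⁻¹ * b1 a * a 6) (a 5) := by
  have hb := h.br_b1_6
  have s1 : SemiconjBy (a 6 * a 5) ((a 6)⁻¹ * b1 a * a 6) ((b1 a)⁻¹ * ((a 5)⁻¹ * a 6 * a 5) * b1 a)
      := by
    apply sb_of_cj
    have e1 : (a 5)⁻¹ * b1 a = b1 a * (a 5)⁻¹ := (h.b1_5.inv_right.symm).eq
    have e2 : (b1 a)⁻¹ * a 5 = a 5 * (b1 a)⁻¹ := (h.b1_5.inv_left).eq
    calc a 6 * a 5 * ((a 6)⁻¹ * b1 a * a 6) * (a 6 * a 5)⁻¹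
        = (a 6 * a 5 * (a 6)⁻¹) * b1 a * (a 6 * a 5 * (a 6)⁻¹)⁻¹ := by group
      _ = ((a 5)⁻¹ * a 6 * a 5) * b1 a * ((a 5)⁻¹ * a 6 * a 5)⁻¹ := by rw [br_cj h.b56.symm]
      _ = (a 5)⁻¹ * a 6 * (a 5 * b1 a * (a 5)⁻¹) * (a 6)⁻¹ * a 5 := by group
      _ = (a 5)⁻¹ * (a 6 * b1 a * (a 6)⁻¹) * a 5 := by rw [sb_cj h.b1_5.symm]; group
      _ = (a 5)⁻¹ * ((b1 a)⁻¹ * a 6 * b1 a) * a 5 := by rw [br_cj hb.symm]
      _ = ((a 5)⁻¹ * (b1 a)⁻¹) * a 6 * (b1 a * a 5) := by group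
      _ = ((b1 a)⁻¹ * (a 5)⁻¹) * a 6 * (a 5 * b1 a) := by
        rw [h.b1_5.eq, (h.b1_5.inv_inv).eq]
      _ = _ := by group
  have s2 : SemiconjBy (b1 a) ((b1 a)⁻¹ * ((a 5)⁻¹ * a 6 * a 5) * b1 a) ((a 5)⁻¹ * a 6 * a 5) :=
    sb_cji_self _ _
  have s3 : SemiconjBy ((a 6 * a 5)⁻¹) ((a 5)⁻¹ * a 6 * a 5) (a 5) := by
    apply sb_of_cj
    rw [← br_cj h.b56.symm]
    group
  exact (s3.mul_left s2).mul_left s1

/-- An identity in the group of type `D₄`. -/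
theorem d4 : Commute (a 4 * a 3 * (a 5)⁻¹ * (a 4)⁻¹ * a 0 * (a 4 * a 3 * (a 5)⁻¹ * (a 4)⁻¹)⁻¹)
    (a 0) := by
  have k1 : Commute (a 3 * ((a 5)⁻¹ * a 4 * a 5) * (a 3)⁻¹) (a 4) := by
    have k2 : Commute ((a 5)⁻¹ * a 4 * a 5) ((a 3)⁻¹ * a 4 * a 3) := by
      rw [br_cj' h.b45.symm, br_cj' h.b34]
      exact (Commute.conj_iff (a 4)).2 h.c35.symm
    exact cm_of_sb (sb_cj_self (a 3) _) (sb_cji_self (a 3) (a 4)) k2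
  have k3 : SemiconjBy (a 4 * a 0) (a 4) (a 0) := sb_braid h.b04.symm
  refine cm_of_sb (g := a 4 * a 0) ?_ k3 k1
  apply sb_of_cj
  have e1 : a 0 * a 3 = a 3 * a 0 := h.c03.eq
  have e2 : a 0 * (a 5)⁻¹ = (a 5)⁻¹ * a 0 := h.c05.inv_right.eq
  have e3 : SemiconjBy (a 3 * (a 5)⁻¹) (a 0) (a 0) := h.c03.symm.mul_left h.c05.inv_right.symm
  have e4 : a 0 * (a 3 * (a 5)⁻¹) = (a 3 * (a 5)⁻¹) * a 0 := e3.eq.symm
  calc a 4 * a 0 * (a 3 * ((a 5)⁻¹ * a 4 * a 5) * (a 3)⁻¹) * (a 4 * a 0)⁻¹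
      = a 4 * (a 0 * (a 3 * (a 5)⁻¹)) * a 4 * (a 0 * (a 3 * (a 5)⁻¹))⁻¹ * (a 4)⁻¹ := by group
    _ = a 4 * ((a 3 * (a 5)⁻¹) * a 0) * a 4 * ((a 3 * (a 5)⁻¹) * a 0)⁻¹ * (a 4)⁻¹ := by rw [e4]
    _ = a 4 * (a 3 * (a 5)⁻¹) * (a 0 * a 4 * (a 0)⁻¹) * (a 3 * (a 5)⁻¹)⁻¹ * (a 4)⁻¹ := by group
    _ = a 4 * (a 3 * (a 5)⁻¹) * ((a 4)⁻¹ * a 0 * a 4) * (a 3 * (a 5)⁻¹)⁻¹ * (a 4)⁻¹ := by
      rw [br_cj h.b04]
    _ = _ := by group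

theorem w_b1 : Commute ((a 4 * a 3 * a 2 * a 1) * b1 a * (a 4 * a 3 * a 2 * a 1)⁻¹) (a 0) := by
  have k1 : SemiconjBy ((a 3)⁻¹ * (a 2)⁻¹) (a 0) (a 0) :=
    SemiconjBy.mul_left h.c03.symm.inv_left h.c02.symm.inv_left
  refine cm_of_sb (g := (a 3)⁻¹ * (a 2)⁻¹) ?_ k1 h.d4
  apply sb_of_cj
  set g := a 4 * a 3 * (a 5)⁻¹ * (a 4)⁻¹ with hg
  have e1 : (a 4 * a 3 * a 2) * (t2 a)⁻¹ = (a 3)⁻¹ * (a 2)⁻¹ * g * a 2 := by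
    have f1 : a 2 * (a 4)⁻¹ = (a 4)⁻¹ * a 2 := h.c24.inv_right.eq
    have f2 : a 2 * (a 5)⁻¹ = (a 5)⁻¹ * a 2 := h.c25.inv_right.eq
    have f3 : a 4 * a 3 * (a 4)⁻¹ = (a 3)⁻¹ * a 4 * a 3 := br_cj h.b34.symm
    have f4 : a 3 * a 2 * (a 3)⁻¹ = (a 2)⁻¹ * a 3 * a 2 := br_cj h.b23.symm
    have f5 : a 4 * (a 2)⁻¹ = (a 2)⁻¹ * a 4 := h.c24.symm.inv_right.eq
    calc (a 4 * a 3 * a 2) * (t2 a)⁻¹
        = a 4 * a 3 * (a 2 * (a 4)⁻¹) * (a 3)⁻¹ * (a 5)⁻¹ * (a 4)⁻¹ := by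
          simp only [t2]; group
      _ = (a 4 * a 3 * (a 4)⁻¹) * a 2 * (a 3)⁻¹ * (a 5)⁻¹ * (a 4)⁻¹ := by rw [f1]; group
      _ = (a 3)⁻¹ * a 4 * (a 3 * a 2 * (a 3)⁻¹) * (a 5)⁻¹ * (a 4)⁻¹ := by rw [f3]; group
      _ = (a 3)⁻¹ * (a 4 * (a 2)⁻¹) * a 3 * (a 2 * (a 5)⁻¹) * (a 4)⁻¹ := by rw [f4]; group
      _ = (a 3)⁻¹ * (a 2)⁻¹ * a 4 * a 3 * (a 5)⁻¹ * (a 2 * (a 4)⁻¹) := by rw [f5, f2]; group
      _ = (a 3)⁻¹ * (a 2)⁻¹ * a 4 * a 3 * (a 5)⁻¹ * ((a 4)⁻¹ * a 2) := by rw [f1]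
      _ = (a 3)⁻¹ * (a 2)⁻¹ * g * a 2 := by rw [hg]; group
  have e2 : a 1 * b1 a * (a 1)⁻¹ = b1 a := sb_cj h.b1_1.symm
  have e3 : a 2 * a 0 * (a 2)⁻¹ = a 0 := sb_cj h.c02.symm
  calc (a 3)⁻¹ * (a 2)⁻¹ * (g * a 0 * g⁻¹) * ((a 3)⁻¹ * (a 2)⁻¹)⁻¹
      = (a 3)⁻¹ * (a 2)⁻¹ * (g * (a 2 * a 0 * (a 2)⁻¹) * g⁻¹) * ((a 3)⁻¹ * (a 2)⁻¹)⁻¹ := by rw [e3]
    _ = ((a 3)⁻¹ * (a 2)⁻¹ * g * a 2) * a 0 * ((a 3)⁻¹ * (a 2)⁻¹ * g * a 2)⁻¹ := by group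
    _ = (a 4 * a 3 * a 2) * ((t2 a)⁻¹ * a 0 * t2 a) * (a 4 * a 3 * a 2)⁻¹ := by rw [← e1]; group
    _ = (a 4 * a 3 * a 2) * (a 1 * b1 a * (a 1)⁻¹) * (a 4 * a 3 * a 2)⁻¹ := by rw [e2]; rfl
    _ = _ := by group

theorem b3_2 : Commute (b3 a) (a 2) :=
  cm_of_sb (sb_cj_self (vv a) (a 0)) h.vv_2 h.c02

theorem b3_4 : Commute (b3 a) (a 4) := by
  set w := a 4 * a 3 * a 2 * a 1 with hw
  have s1 : SemiconjBy (a 6 * a 5 * a 4 * a 3 * a 2) (a 5) (a 4) := by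
    have e : a 6 * a 5 * a 4 * a 3 * a 2 = a 6 * ((a 5 * a 4) * (a 3 * a 2)) := by simp [mul_assoc]
    rw [e]
    exact SemiconjBy.mul_left h.c46.symm ((sb_braid h.b45.symm).mul_left
      (h.c35.mul_left h.c25))
  have s2 := h.uu_5
  have s3 : SemiconjBy w⁻¹ (w * ((a 6)⁻¹ * b1 a * a 6) * w⁻¹) ((a 6)⁻¹ * b1 a * a 6) :=
    sb_inv (sb_cj_self w _)
  have e : vv a = (a 6 * a 5 * a 4 * a 3 * a 2) * (uu a * w⁻¹) := by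
    simp only [vv, hw, mul_inv_rev, mul_assoc]
  have s4 : SemiconjBy (vv a) (w * ((a 6)⁻¹ * b1 a * a 6) * w⁻¹) (a 4) := by
    rw [e]
    exact SemiconjBy.mul_left s1 (SemiconjBy.mul_left s2 s3)
  refine cm_of_sb (sb_cj_self (vv a) (a 0)) s4 ?_
  have c6 : SemiconjBy w (a 6) (a 6) :=
    ((h.c46.mul_left h.c36).mul_left h.c26).mul_left h.c16
  have e2 : w * ((a 6)⁻¹ * b1 a * a 6) * w⁻¹ = (a 6)⁻¹ * (w * b1 a * w⁻¹) * a 6 := by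
    have f1 : w * (a 6)⁻¹ = (a 6)⁻¹ * w := (Commute.inv_right c6).eq
    have f2 : a 6 * w⁻¹ = w⁻¹ * a 6 := ((show Commute w (a 6) from c6).symm.inv_right).eq
    calc w * ((a 6)⁻¹ * b1 a * a 6) * w⁻¹ = (w * (a 6)⁻¹) * b1 a * (a 6 * w⁻¹) := by group
      _ = ((a 6)⁻¹ * w) * b1 a * (w⁻¹ * a 6) := by rw [f1, f2]
      _ = _ := by group
  rw [e2]
  have h6 : Commute (a 6) (a 0) := h.c06.symm
  exact ((h6.inv_left.mul_left h.w_b1).mul_left h6).symm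

end Braids

/-- Braid relations, 3-chain relation and lantern relation. -/
structure Rels (a : Fin 9 → G) : Prop extends Braids a where
  chain : (a 1 * a 2 * a 3) ^ 4 = a 0 * b0 a
  lantern : a 0 * b2 a * b1 a = a 1 * a 3 * a 5 * b3 a

namespace Rels

variable (h : Rels a)

include h

theorem delta_cm {x : G} (h1 : Commute x (a 1)) (h2 : Commute x (a 2)) (h3 : Commute x (a 3)) :
    Commute x (a 0 * b0 a) := by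
  rw [← h.chain]
  exact ((h1.mul_right h2).mul_right h3).pow_right 4

theorem cm00 : Commute (a 0) (b0 a) := by
  have e : b0 a = (a 0)⁻¹ * (a 0 * b0 a) := by group
  rw [e]
  exact ((Commute.refl (a 0)).inv_right).mul_right (h.delta_cm h.c01 h.c02 h.c03)

theorem b0_cm {x : G} (h0 : Commute x (a 0)) (h1 : Commute x (a 1)) (h2 : Commute x (a 2))
    (h3 : Commute x (a 3)) : Commute x (b0 a) := by
  have e : b0 a = (a 0)⁻¹ * (a 0 * b0 a) := by group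
  rw [e]
  exact h0.inv_right.mul_right (h.delta_cm h1 h2 h3)

theorem b0_5 : Commute (b0 a) (a 5) :=
  (h.b0_cm h.c05.symm h.c15.symm h.c25.symm h.c35.symm).symm

theorem b0_6 : Commute (b0 a) (a 6) :=
  (h.b0_cm h.c06.symm h.c16.symm h.c26.symm h.c36.symm).symm

theorem b0_7 : Commute (b0 a) (a 7) :=
  (h.b0_cm h.c07.symm h.c17.symm h.c27.symm h.c37.symm).symm

theorem b0_8 : Commute (b0 a) (a 8) :=
  (h.b0_cm h.c08.symm h.c18.symm h.c28.symm h.c38.symm).symm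

omit h in
theorem A5_0 : SemiconjBy (A5 a) (a 0) (b0 a) := sb_cj_self _ _

theorem A5_b0 : SemiconjBy (A5 a) (b0 a) (a 0) := by
  have k : Commute (A5 a) (a 0 * b0 a) := h.delta_cm h.A5_1 h.A5_2 h.A5_3
  apply sb_of_cj
  have e1 : A5 a * (a 0 * b0 a) * (A5 a)⁻¹ = a 0 * b0 a := sb_cj k
  have e2 : A5 a * a 0 * (A5 a)⁻¹ = b0 a := rfl
  have e3 : (A5 a * a 0 * (A5 a)⁻¹) * (A5 a * b0 a * (A5 a)⁻¹) = b0 a * a 0 := by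
    rw [← h.cm00.eq, ← e1]; group
  rw [e2] at e3
  exact mul_left_cancel e3

theorem io_0 : SemiconjBy (io a) (a 0) (b0 a) := by
  have k1 : Commute (a 5 * a 6) (a 0) := h.c05.symm.mul_left h.c06.symm
  have k2 : Commute (a 6 * a 5) (b0 a) := h.b0_6.symm.mul_left h.b0_5.symm
  exact (SemiconjBy.mul_left k2 A5_0).mul_left k1

theorem io_b0 : SemiconjBy (io a) (b0 a) (a 0) := by
  have k1 : Commute (a 5 * a 6) (b0 a) := h.b0_5.symm.mul_left h.b0_6.symm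
  have k2 : Commute (a 6 * a 5) (a 0) := h.c06.symm.mul_left h.c05.symm
  exact (SemiconjBy.mul_left k2 h.A5_b0).mul_left k1

theorem t1_b0 : Commute (t1 a) (b0 a) :=
  ((h.b0_2.symm.mul_left h.b0_3.symm).mul_left h.b0_1.symm).mul_left h.b0_2.symm

theorem t3_b0 : Commute (t3 a) (b0 a) :=
  ((h.b0_6.symm.mul_left h.b0_7.symm).mul_left h.b0_5.symm).mul_left h.b0_6.symm

/-- `t₂ t₁ t₁ t₂` fixes `a₀`. -/
theorem tttt_0 : Commute (t2 a * t1 a * (t1 a * t2 a)) (a 0) := by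
  have k : SemiconjBy (A5 a * a 5 * A5 a) (a 0) (a 0) :=
    (h.A5_b0.mul_left h.b0_5.symm).mul_left A5_0
  have e : t2 a * t1 a * (t1 a * t2 a) = (A5 a * a 5 * A5 a) * (a 5)⁻¹ := by
    rw [← h.tttt]; group
  rw [e]
  exact SemiconjBy.mul_left k h.c05.symm.inv_left

/-- `b₂ = t₁ t₂ a₀ (t₁ t₂)⁻¹` -/
theorem b2_sb' : SemiconjBy (t1 a * t2 a) (a 0) (b2 a) := by
  apply sb_of_cj
  have k := h.tttt_0
  have e1 : t2 a * t1 a * (t1 a * t2 a) * a 0 * (t2 a * t1 a * (t1 a * t2 a))⁻¹ = a 0 := sb_cj k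
  have e2 : b2 a = (t2 a * t1 a)⁻¹ * a 0 * (t2 a * t1 a) := by
    simp only [b2, b1]; group
  rw [e2]
  nth_rewrite 2 [← e1]
  group

theorem b3_1 : Commute (b3 a) (a 1) := by
  have e : b3 a = (a 1 * a 3 * a 5)⁻¹ * (a 0 * b2 a * b1 a) := by rw [h.lantern]; group
  rw [e]
  have k : Commute (a 1 * a 3 * a 5) (a 1) :=
    ((Commute.refl _).mul_left h.c13.symm).mul_left h.c15.symm
  exact k.inv_left.mul_left ((h.c01.mul_left h.b2_1).mul_left h.b1_1)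

theorem b3_3 : Commute (b3 a) (a 3) := by
  have e : b3 a = (a 1 * a 3 * a 5)⁻¹ * (a 0 * b2 a * b1 a) := by rw [h.lantern]; group
  rw [e]
  have k : Commute (a 1 * a 3 * a 5) (a 3) :=
    (h.c13.mul_left (Commute.refl _)).mul_left h.c35.symm
  exact k.inv_left.mul_left ((h.c03.mul_left h.b2_3).mul_left h.b1_3)

theorem b3_5 : Commute (b3 a) (a 5) := by
  have e : b3 a = (a 1 * a 3 * a 5)⁻¹ * (a 0 * b2 a * b1 a) := by rw [h.lantern]; group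
  rw [e]
  have k : Commute (a 1 * a 3 * a 5) (a 5) :=
    (h.c15.mul_left h.c35).mul_left (Commute.refl _)
  exact k.inv_left.mul_left ((h.c05.mul_left h.b2_5).mul_left h.b1_5)

/-- `C = a₀ b₂ b₁` commutes with `t₁`. -/
theorem C_t1 : SemiconjBy (t1 a) (a 0 * b2 a * b1 a) (a 0 * b2 a * b1 a) := by
  rw [h.lantern]
  have k3 : Commute (t1 a) (b3 a) :=
    ((h.b3_2.symm.mul_left h.b3_3.symm).mul_left h.b3_1.symm).mul_left h.b3_2.symm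
  have k : SemiconjBy (t1 a) (a 1 * a 3 * a 5) (a 3 * a 1 * a 5) :=
    (h.t1_1.mul_right h.t1_3).mul_right h.t1_5
  rw [h.c13.symm.eq] at k
  exact k.mul_right k3

/-- `C = a₀ b₂ b₁` commutes with `t₂`. -/
theorem C_t2 : SemiconjBy (t2 a) (a 0 * b2 a * b1 a) (a 0 * b2 a * b1 a) := by
  rw [h.lantern]
  have k3 : Commute (t2 a) (b3 a) :=
    ((h.b3_4.symm.mul_left h.b3_5.symm).mul_left h.b3_3.symm).mul_left h.b3_4.symm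
  have k : SemiconjBy (t2 a) (a 1 * a 3 * a 5) (a 1 * a 5 * a 3) :=
    (SemiconjBy.mul_right h.t2_1 h.t2_3).mul_right h.t2_5
  have e : a 1 * a 5 * a 3 = a 1 * a 3 * a 5 := by rw [mul_assoc, h.c35.symm.eq, ← mul_assoc]
  rw [e] at k
  exact k.mul_right k3

theorem T_b1 : SemiconjBy (t1 a * t2 a) (b1 a) (a 0) :=
  SemiconjBy.mul_left h.t1_0 Braids.b1_sb

theorem T_b2 : SemiconjBy (t1 a * t2 a) (b2 a) (b1 a) := by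
  have e : t1 a * t2 a = (t2 a)⁻¹ * t1 a * (t2 a * t1 a) := by
    have := h.tbr'
    calc t1 a * t2 a = (t2 a)⁻¹ * (t2 a * t1 a * t2 a) := by group
      _ = (t2 a)⁻¹ * (t1 a * t2 a * t1 a) := by rw [this]
      _ = _ := by group
  rw [e]
  have k1 : SemiconjBy (t2 a * t1 a) (b2 a) (a 0) := Braids.b1_sb.mul_left Braids.b2_sb
  have k2 : SemiconjBy ((t2 a)⁻¹ * t1 a) (a 0) (b1 a) :=
    SemiconjBy.mul_left (sb_inv Braids.b1_sb) h.t1_0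
  exact k2.mul_left k1

/-- `C = b₂ b₁ a₀`. -/
theorem C_eq : a 0 * b2 a * b1 a = b2 a * b1 a * a 0 := by
  have k1 : SemiconjBy (t1 a * t2 a) (a 0 * b2 a * b1 a) (a 0 * b2 a * b1 a) :=
    h.C_t1.mul_left h.C_t2
  have k2 : SemiconjBy (t1 a * t2 a) (a 0 * b2 a * b1 a) (b2 a * b1 a * a 0) :=
    (h.b2_sb'.mul_right h.T_b2).mul_right h.T_b1
  rw [← sb_cj k1, sb_cj k2]

theorem t2_b2 : Commute (t2 a) (b2 a) := by
  -- `b₂ = t₁ t₂ a₀ (t₁ t₂)⁻¹` and `t₂ t₁ t₂ = t₁ t₂ t₁`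
  have k1 : SemiconjBy (t2 a * (t1 a * t2 a)) (a 0) (b2 a) := by
    have e : t2 a * (t1 a * t2 a) = (t1 a * t2 a) * t1 a := by
      rw [h.tbr', mul_assoc]
    rw [e]
    exact h.b2_sb'.mul_left h.t1_0
  have e1 := sb_cj k1
  have e2 := sb_cj h.b2_sb'
  have : t2 a * b2 a * (t2 a)⁻¹ = b2 a := by
    calc t2 a * b2 a * (t2 a)⁻¹
        = t2 a * (t1 a * t2 a * a 0 * (t1 a * t2 a)⁻¹) * (t2 a)⁻¹ := by rw [e2]
      _ = t2 a * (t1 a * t2 a) * a 0 * (t2 a * (t1 a * t2 a))⁻¹ := by group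
      _ = b2 a := e1
  exact sb_of_cj this

/-- `(t₂ a₀ t₂⁻¹) b₂ = b₂ b₁` -/
theorem key1 : t2 a * a 0 * (t2 a)⁻¹ * b2 a = b2 a * b1 a := by
  have k1 : SemiconjBy (t2 a) (a 0 * b2 a * b1 a) (t2 a * a 0 * (t2 a)⁻¹ * b2 a * a 0) :=
    ((sb_cj_self (t2 a) (a 0)).mul_right h.t2_b2).mul_right Braids.b1_sb
  have e := (sb_cj k1).symm.trans (sb_cj h.C_t2)
  rw [h.C_eq] at e
  exact mul_right_cancel e

/-- `(t₂²)⁻¹ a₀ t₂² = b₂⁻¹ a₀ b₂` -/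
theorem key2 : (t2 a * t2 a)⁻¹ * a 0 * (t2 a * t2 a) = (b2 a)⁻¹ * a 0 * b2 a := by
  have k2 : (t2 a)⁻¹ * b2 a * t2 a = b2 a := by
    have := sb_cj (sb_inv h.t2_b2)
    rwa [inv_inv] at this
  have e : (b2 a)⁻¹ * ((t2 a)⁻¹ * (t2 a * a 0 * (t2 a)⁻¹ * b2 a) * t2 a) =
      (b2 a)⁻¹ * ((t2 a)⁻¹ * (b2 a * b1 a) * t2 a) := by rw [h.key1]
  have e1 : (b2 a)⁻¹ * ((t2 a)⁻¹ * (t2 a * a 0 * (t2 a)⁻¹ * b2 a) * t2 a) =
      (b2 a)⁻¹ * a 0 * ((t2 a)⁻¹ * b2 a * t2 a) := by group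
  have e2 : (b2 a)⁻¹ * ((t2 a)⁻¹ * (b2 a * b1 a) * t2 a) =
      (b2 a)⁻¹ * ((t2 a)⁻¹ * b2 a * t2 a) * ((t2 a)⁻¹ * b1 a * t2 a) := by group
  rw [e1, e2, k2, inv_mul_cancel, one_mul] at e
  rw [e]
  simp only [b1]
  group

/-- `e' = t₁ t₂ b₀ (t₁ t₂)⁻¹`. -/
theorem e'_eq : b2 a * (t1 a * t2 a * b0 a * (t1 a * t2 a)⁻¹) =
    t2 a * t2 a * (a 3 ^ 2 * a 5 ^ 2) := by
  have k1 : SemiconjBy (t1 a * t2 a) ((a 1 * a 2 * a 3) ^ 4) ((a 3 * a 4 * a 5) ^ 4) :=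
    ((h.T_1.mul_right h.T_2).mul_right h.T_3).pow_right 4
  have k2 : SemiconjBy (t1 a * t2 a) (a 0 * b0 a)
      (b2 a * (t1 a * t2 a * b0 a * (t1 a * t2 a)⁻¹)) :=
    h.b2_sb'.mul_right (sb_cj_self _ _)
  rw [h.chain] at k1
  rw [← sb_cj k2, sb_cj k1]
  have e1 : (a 3 * a 4 * a 5) ^ 2 = t2 a * a 5 ^ 2 := by
    have : a 3 * t2 a = t2 a * a 5 := h.t2_5.eq.symm
    calc (a 3 * a 4 * a 5) ^ 2 = (a 3 * t2 a) * a 5 := by simp only [t2, pow_two, mul_assoc]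
      _ = t2 a * a 5 ^ 2 := by rw [this, pow_two, mul_assoc]
  have e2 : a 5 ^ 2 * t2 a = t2 a * a 3 ^ 2 := (h.t2_3.pow_right 2).eq.symm
  calc (a 3 * a 4 * a 5) ^ 4 = (a 3 * a 4 * a 5) ^ 2 * (a 3 * a 4 * a 5) ^ 2 := by
        rw [← pow_add]
    _ = t2 a * (a 5 ^ 2 * t2 a) * a 5 ^ 2 := by rw [e1]; simp only [mul_assoc]
    _ = _ := by rw [e2]; simp only [mul_assoc]

/-- `a₀` commutes with `t₁ t₂ b₀ (t₁ t₂)⁻¹`. -/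
theorem cm_e' : Commute (a 0) (t1 a * t2 a * b0 a * (t1 a * t2 a)⁻¹) := by
  set e' := t1 a * t2 a * b0 a * (t1 a * t2 a)⁻¹ with he
  have k2 : Commute (b2 a) e' :=
    cm_of_sb h.b2_sb' (sb_cj_self _ _) h.cm00
  have k3 : e' = (t2 a * t2 a * (a 3 ^ 2 * a 5 ^ 2)) * (b2 a)⁻¹ := by
    rw [← h.e'_eq, ← he, k2.eq]; group
  have k4 : Commute (a 3 ^ 2 * a 5 ^ 2) (a 0) :=
    (h.c03.symm.pow_left 2).mul_left (h.c05.symm.pow_left 2)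
  have k6 : (a 3 ^ 2 * a 5 ^ 2) * (t2 a * t2 a) = (t2 a * t2 a) * (a 3 ^ 2 * a 5 ^ 2) := by
    have f1 : SemiconjBy (t2 a * t2 a) (a 3) (a 3) := h.t2_5.mul_left h.t2_3
    have f2 : SemiconjBy (t2 a * t2 a) (a 5) (a 5) := h.t2_3.mul_left h.t2_5
    exact ((f1.pow_right 2).mul_right (f2.pow_right 2)).eq.symm
  have k5 : e'⁻¹ * a 0 * e' = a 0 := by
    have f3 : (a 3 ^ 2 * a 5 ^ 2)⁻¹ * a 0 * (a 3 ^ 2 * a 5 ^ 2) = a 0 := by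
      have := sb_cj (sb_inv k4)
      rwa [inv_inv] at this
    calc e'⁻¹ * a 0 * e'
        = b2 a * ((a 3 ^ 2 * a 5 ^ 2) * (t2 a * t2 a))⁻¹⁻¹⁻¹ * a 0 *
            ((a 3 ^ 2 * a 5 ^ 2) * (t2 a * t2 a)) * (b2 a)⁻¹ := by
          rw [k6, inv_inv]
          nth_rewrite 1 [k3]
          nth_rewrite 1 [k3]
          group
      _ = b2 a * ((t2 a * t2 a)⁻¹ * ((a 3 ^ 2 * a 5 ^ 2)⁻¹ * a 0 * (a 3 ^ 2 * a 5 ^ 2)) *
            (t2 a * t2 a)) * (b2 a)⁻¹ := by rw [inv_inv]; simp only [mul_inv_rev, mul_assoc]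
      _ = b2 a * ((b2 a)⁻¹ * a 0 * b2 a) * (b2 a)⁻¹ := by rw [f3, h.key2]
      _ = a 0 := by group
  have k7 : a 0 * e' = e' * a 0 := by
    nth_rewrite 2 [← k5]
    group
  exact k7

/-- `R1`: `a₀` commutes with `t₂ b₀ t₂⁻¹`. -/
theorem R1 : Commute (a 0) (t2 a * b0 a * (t2 a)⁻¹) := by
  refine cm_of_sb (sb_inv h.t1_0) ?_ h.cm_e'
  apply sb_of_cj
  group

/-- `R1'`: `b₀` commutes with `t₂ a₀ t₂⁻¹`. -/
theorem R1' : Commute (b0 a) (t2 a * a 0 * (t2 a)⁻¹) := by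
  refine cm_of_sb h.io_0 ?_ h.R1
  have k : SemiconjBy (io a) (t2 a * b0 a * (t2 a)⁻¹) (t2 a * a 0 * (t2 a)⁻¹) :=
    (SemiconjBy.mul_right h.io_t2 h.io_b0).mul_right h.io_t2.inv_right
  exact k

/-- `b₀` and `b₁` commute. -/
theorem cm01 : Commute (b0 a) (b1 a) :=
  cm_of_sb (sb_inv (sb_cj_self (t2 a) (b0 a))) (sb_inv Braids.b1_sb) h.R1.symm

/-- `c₁ = t₂⁻¹ b₀ t₂` commutes with `a₀`. -/
theorem cm10 : Commute ((t2 a)⁻¹ * b0 a * t2 a) (a 0) :=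
  cm_of_sb (sb_inv (sb_cji_self (t2 a) (b0 a))) (sb_inv (sb_cj_self (t2 a) (a 0))) h.R1'

end Rels

end

end Pool.Agent.H.MP_ee9c6f_al.E4.W
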