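import Mathlib
import Pool.Agent.H.MP_ee9c6f_al.E4.Words2

/-!
MP_ee9c6f_al / E4 (helper38). The element `z = (a₀ b₁⁻¹)³` and a finite generating set whose
elements `s` satisfy `Commute z (s z s⁻¹)`.
-/

set_option autoImplicit false

namespace Pool.Agent.H.MP_ee9c6f_al.E4.W

section

variable {G : Type*} [Group G]

/-- `t c t⁻¹ = (y c)⁻¹ x (y c)` for `t = x y w x`. -/
theorem t_conj {x y w c : G} (hxc : Commute x c) (hwc : Commute w c)
    (hyc : y * c * y = c * y * c) (hxy : x * y * x = y * x * y) :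
    (x * y * w * x) * c * (x * y * w * x)⁻¹ = (y * c)⁻¹ * x * (y * c) := by
  have e1 : w * x * c * (w * x)⁻¹ = c := sb_cj (hwc.mul_left hxc)
  have e2 : x * c⁻¹ = c⁻¹ * x := hxc.inv_right.eq
  have e3 : c * x⁻¹ = x⁻¹ * c := hxc.symm.inv_right.eq
  calc (x * y * w * x) * c * (x * y * w * x)⁻¹
      = x * y * (w * x * c * (w * x)⁻¹) * y⁻¹ * x⁻¹ := by group
    _ = x * (y * c * y⁻¹) * x⁻¹ := by rw [e1]; group
    _ = x * (c⁻¹ * y * c) * x⁻¹ := by rw [br_cj hyc]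
    _ = (x * c⁻¹) * y * (c * x⁻¹) := by group
    _ = c⁻¹ * (x * y * x⁻¹) * c := by rw [e2, e3]; group
    _ = c⁻¹ * (y⁻¹ * x * y) * c := by rw [br_cj hxy]
    _ = _ := by group

variable {a : Fin 9 → G}

theorem zz_self {s : G} (h0 : Commute s (a 0)) (h1 : Commute s (b1 a)) :
    Commute (zz a) (s * zz a * s⁻¹) := by
  have k : Commute s (zz a) := (h0.mul_right h1.inv_right).pow_right 3
  rw [sb_cj k]

theorem zz_move {s x y : G} (hx : SemiconjBy s (a 0) x) (hy : SemiconjBy s (b1 a) y)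
    (h1 : Commute (a 0) x) (h2 : Commute (a 0) y) (h3 : Commute (b1 a) x)
    (h4 : Commute (b1 a) y) : Commute (zz a) (s * zz a * s⁻¹) := by
  have k : SemiconjBy s (zz a) ((x * y⁻¹) ^ 3) := (hx.mul_right hy.inv_right).pow_right 3
  rw [sb_cj k]
  have k1 : Commute (a 0) (x * y⁻¹) := h1.mul_right h2.inv_right
  have k2 : Commute (b1 a) (x * y⁻¹) := h3.mul_right h4.inv_right
  exact (k1.mul_left k2.inv_left).pow_pow 3 3

/-- The finite generating set. -/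
def genS (a : Fin 9 → G) : Set G :=
  {a 1, a 3, a 5, a 7, a 8, b0 a, io a, io a * t1 a, io a * t2 a, t3 a * io a}

theorem genS_finite (a : Fin 9 → G) : (genS a).Finite := by
  unfold genS
  exact Set.toFinite _

namespace Rels

variable (h : Rels a)

include h

theorem cm11 : Commute (b1 a) ((t2 a)⁻¹ * b0 a * t2 a) :=
  cm_of_sb (sb_inv Braids.b1_sb) (sb_inv (sb_cji_self (t2 a) (b0 a))) h.cm00

theorem io_b1 : SemiconjBy (io a) (b1 a) ((t2 a)⁻¹ * b0 a * t2 a) :=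
  (SemiconjBy.mul_right h.io_t2.inv_right h.io_0).mul_right h.io_t2

theorem cm_b2b0 : Commute (b0 a) (b2 a) := by
  have k : SemiconjBy (io a) (t1 a * t2 a * b0 a * (t1 a * t2 a)⁻¹)
      (t1 a * t2 a * a 0 * (t1 a * t2 a)⁻¹) := by
    have k1 : Commute (io a) (t1 a * t2 a) := h.io_t1.mul_right h.io_t2
    exact (SemiconjBy.mul_right k1 h.io_b0).mul_right k1.inv_right
  rw [sb_cj h.b2_sb'] at k
  exact cm_of_sb h.io_0 k h.cm_e'

theorem z_a1 : Commute (zz a) (a 1 * zz a * (a 1)⁻¹) := zz_self h.c01.symm h.b1_1.symm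
theorem z_a3 : Commute (zz a) (a 3 * zz a * (a 3)⁻¹) := zz_self h.c03.symm h.b1_3.symm
theorem z_a5 : Commute (zz a) (a 5 * zz a * (a 5)⁻¹) := zz_self h.c05.symm h.b1_5.symm
theorem z_a7 : Commute (zz a) (a 7 * zz a * (a 7)⁻¹) := zz_self h.c07.symm h.b1_7.symm
theorem z_a8 : Commute (zz a) (a 8 * zz a * (a 8)⁻¹) := zz_self h.c08.symm h.b1_8.symm
theorem z_b0 : Commute (zz a) (b0 a * zz a * (b0 a)⁻¹) := zz_self h.cm00.symm h.cm01

theorem z_io : Commute (zz a) (io a * zz a * (io a)⁻¹) :=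
  zz_move h.io_0 h.io_b1 h.cm00 h.cm10.symm h.cm01.symm h.cm11

theorem z_t1 : Commute (zz a) (io a * t1 a * zz a * (io a * t1 a)⁻¹) := by
  set c := (t2 a)⁻¹ * b0 a * t2 a with hc
  have hx : SemiconjBy (io a * t1 a) (a 0) (b0 a) := h.io_0.mul_left h.t1_0
  have hy : SemiconjBy (io a * t1 a) (b1 a) (t1 a * c * (t1 a)⁻¹) := by
    refine SemiconjBy.mul_left ?_ (sb_cj_self (t1 a) (b1 a))
    exact (SemiconjBy.mul_right h.io_t1 h.io_b1).mul_right h.io_t1.inv_right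
  refine zz_move hx hy h.cm00 ?_ h.cm01.symm ?_
  · exact (cm_of_sb (sb_cj_self (t1 a) c) h.t1_0 h.cm10).symm
  · -- transport by `t₂⁻¹`
    have k1 : SemiconjBy (t2 a) (t1 a * c * (t1 a)⁻¹)
        ((t1 a)⁻¹ * (t2 a * b0 a * (t2 a)⁻¹) * t1 a) := by
      have e1 : t2 a * t1 a * (t2 a)⁻¹ = (t1 a)⁻¹ * t2 a * t1 a := br_cj h.tbr'.symm
      have e2 : t1 a * b0 a * (t1 a)⁻¹ = b0 a := sb_cj h.t1_b0
      apply sb_of_cj
      calc t2 a * (t1 a * c * (t1 a)⁻¹) * (t2 a)⁻¹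
          = (t2 a * t1 a * (t2 a)⁻¹) * b0 a * (t2 a * t1 a * (t2 a)⁻¹)⁻¹ := by rw [hc]; group
        _ = ((t1 a)⁻¹ * t2 a * t1 a) * b0 a * ((t1 a)⁻¹ * t2 a * t1 a)⁻¹ := by rw [e1]
        _ = (t1 a)⁻¹ * (t2 a * (t1 a * b0 a * (t1 a)⁻¹) * (t2 a)⁻¹) * t1 a := by group
        _ = _ := by rw [e2]
    have k2 : Commute (a 0) ((t1 a)⁻¹ * (t2 a * b0 a * (t2 a)⁻¹) * t1 a) :=
      cm_of_sb (sb_inv h.t1_0) (sb_inv (sb_cji_self (t1 a) _)) h.R1
    exact cm_of_sb (sb_inv Braids.b1_sb) (sb_inv k1) k2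

theorem z_t2 : Commute (zz a) (io a * t2 a * zz a * (io a * t2 a)⁻¹) := by
  have hx : SemiconjBy (io a * t2 a) (a 0) (t2 a * b0 a * (t2 a)⁻¹) := by
    refine SemiconjBy.mul_left ?_ (sb_cj_self (t2 a) (a 0))
    exact (SemiconjBy.mul_right h.io_t2 h.io_0).mul_right h.io_t2.inv_right
  have hy : SemiconjBy (io a * t2 a) (b1 a) (b0 a) := h.io_0.mul_left Braids.b1_sb
  refine zz_move hx hy h.R1 h.cm00 ?_ h.cm01.symm
  have k1 : Commute ((b2 a)⁻¹ * a 0 * b2 a) (b0 a) :=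
    (h.cm_b2b0.symm.inv_left.mul_left h.cm00).mul_left h.cm_b2b0.symm
  rw [← h.key2] at k1
  refine cm_of_sb (g := t2 a) ?_ (sb_cj_self (t2 a) (b0 a)) k1
  apply sb_of_cj
  simp only [b1]
  group

theorem z_t3 : Commute (zz a) (t3 a * io a * zz a * (t3 a * io a)⁻¹) := by
  set c := (t2 a)⁻¹ * b0 a * t2 a with hc
  have hx : SemiconjBy (t3 a * io a) (a 0) (b0 a) := SemiconjBy.mul_left h.t3_b0 h.io_0
  have hy : SemiconjBy (t3 a * io a) (b1 a) (t3 a * c * (t3 a)⁻¹) :=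
    (sb_cj_self (t3 a) c).mul_left h.io_b1
  refine zz_move hx hy h.cm00 ?_ h.cm01.symm ?_
  · exact (cm_of_sb (sb_cj_self (t3 a) c) h.t3_0 h.cm10).symm
  · have k1 : SemiconjBy (t2 a) (t3 a * c * (t3 a)⁻¹)
        ((t3 a)⁻¹ * (t2 a * b0 a * (t2 a)⁻¹) * t3 a) := by
      have e1 : t2 a * t3 a * (t2 a)⁻¹ = (t3 a)⁻¹ * t2 a * t3 a := br_cj h.tbr23
      have e2 : t3 a * b0 a * (t3 a)⁻¹ = b0 a := sb_cj h.t3_b0
      apply sb_of_cj
      calc t2 a * (t3 a * c * (t3 a)⁻¹) * (t2 a)⁻¹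
          = (t2 a * t3 a * (t2 a)⁻¹) * b0 a * (t2 a * t3 a * (t2 a)⁻¹)⁻¹ := by rw [hc]; group
        _ = ((t3 a)⁻¹ * t2 a * t3 a) * b0 a * ((t3 a)⁻¹ * t2 a * t3 a)⁻¹ := by rw [e1]
        _ = (t3 a)⁻¹ * (t2 a * (t3 a * b0 a * (t3 a)⁻¹) * (t2 a)⁻¹) * t3 a := by group
        _ = _ := by rw [e2]
    have k2 : Commute (a 0) ((t3 a)⁻¹ * (t2 a * b0 a * (t2 a)⁻¹) * t3 a) :=
      cm_of_sb (sb_inv h.t3_0) (sb_inv (sb_cji_self (t3 a) _)) h.R1
    exact cm_of_sb (sb_inv Braids.b1_sb) (sb_inv k1) k2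

theorem zz_comm : ∀ s ∈ genS a, Commute (zz a) (s * zz a * s⁻¹) := by
  rintro s (rfl | rfl | rfl | rfl | rfl | rfl | rfl | rfl | rfl | rfl)
  exacts [h.z_a1, h.z_a3, h.z_a5, h.z_a7, h.z_a8, h.z_b0, h.z_io, h.z_t1, h.z_t2, h.z_t3]

theorem mem_closure_genS : ∀ i, a i ∈ Subgroup.closure (genS a) := by
  set K := Subgroup.closure (genS a) with hK
  have sub : ∀ {s : G}, s ∈ genS a → s ∈ K := fun hs => Subgroup.subset_closure hs
  have m1 : a 1 ∈ K := sub (by simp [genS])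
  have m3 : a 3 ∈ K := sub (by simp [genS])
  have m5 : a 5 ∈ K := sub (by simp [genS])
  have m7 : a 7 ∈ K := sub (by simp [genS])
  have m8 : a 8 ∈ K := sub (by simp [genS])
  have mb : b0 a ∈ K := sub (by simp [genS])
  have mio : io a ∈ K := sub (by simp [genS])
  have mt1 : t1 a ∈ K := by
    have : io a * t1 a ∈ K := sub (by simp [genS])
    simpa using K.mul_mem (K.inv_mem mio) this
  have mt2 : t2 a ∈ K := by
    have : io a * t2 a ∈ K := sub (by simp [genS])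
    simpa using K.mul_mem (K.inv_mem mio) this
  have mt3 : t3 a ∈ K := by
    have : t3 a * io a ∈ K := sub (by simp [genS])
    simpa using K.mul_mem this (K.inv_mem mio)
  have m0 : a 0 ∈ K := by
    have e : a 0 = (io a)⁻¹ * b0 a * io a := by
      rw [← sb_cj h.io_0]; group
    rw [e]
    exact K.mul_mem (K.mul_mem (K.inv_mem mio) mb) mio
  have step : ∀ {t x y c : G}, t * c * t⁻¹ = (y * c)⁻¹ * x * (y * c) → t ∈ K → y ∈ K → c ∈ K →
      x ∈ K := by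
    intro t x y c e ht hy hc
    have e2 : x = (y * c) * (t * c * t⁻¹) * (y * c)⁻¹ := by rw [e]; group
    rw [e2]
    exact K.mul_mem (K.mul_mem (K.mul_mem hy hc)
      (K.mul_mem (K.mul_mem ht hc) (K.inv_mem ht))) (K.inv_mem (K.mul_mem hy hc))
  have m6 : a 6 ∈ K := step (t_conj h.c68 h.c58 h.b78 h.b67) mt3 m7 m8
  have m4 : a 4 ∈ K := step (t_conj h.c46 h.c36 h.b56 h.b45) mt2 m5 m6
  have m2 : a 2 ∈ K := step (t_conj h.c24 h.c14 h.b34 h.b23) mt1 m3 m4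
  intro i
  fin_cases i
  exacts [m0, m1, m2, m3, m4, m5, m6, m7, m8]

theorem closure_genS (hgen : Subgroup.closure (Set.range a) = ⊤) :
    Subgroup.closure (genS a) = ⊤ := by
  rw [eq_top_iff, ← hgen, Subgroup.closure_le]
  rintro _ ⟨i, rfl⟩
  exact h.mem_closure_genS i

end Rels

end

end Pool.Agent.H.MP_ee9c6f_al.E4.W
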