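import Mathlib

/-!
MP_ee9c6f_al, genus 4. The mapping class group of the closed surface of genus `4` by the
presentation of Wajnryb, in the form of Theorem 5.3 of the book of Farb and Margalit,
*A primer on mapping class groups*.
-/

set_option autoImplicit false

namespace Pool.Agent.H.MP_ee9c6f_al.E4

/-- The Humphries generators: `c 1, …, c 8` are the twists about the curves of a chain, `c 0` is the
twist about a curve which meets the fourth curve of the chain once and is disjoint from the others. -/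
def c (i : Fin 9) : FreeGroup (Fin 9) := FreeGroup.of i

/-- The curves with the numbers `i < j` meet (in one point). -/
def Meet (i j : Fin 9) : Prop := (1 ≤ (i : ℕ) ∧ (i : ℕ) + 1 = j) ∨ ((i : ℕ) = 0 ∧ (j : ℕ) = 4)

/-- the twist about the second boundary curve of the chain `1, 2, 3` -/
def b0 : FreeGroup (Fin 9) :=
  (c 4 * c 3 * c 2 * c 1 * c 1 * c 2 * c 3 * c 4) * c 0 *
    (c 4 * c 3 * c 2 * c 1 * c 1 * c 2 * c 3 * c 4)⁻¹

def b1 : FreeGroup (Fin 9) := (c 4 * c 5 * c 3 * c 4)⁻¹ * c 0 * (c 4 * c 5 * c 3 * c 4)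

def b2 : FreeGroup (Fin 9) := (c 2 * c 3 * c 1 * c 2)⁻¹ * b1 * (c 2 * c 3 * c 1 * c 2)

def uu : FreeGroup (Fin 9) := (c 6 * c 5)⁻¹ * b1 * (c 6 * c 5)

def b3 : FreeGroup (Fin 9) :=
  (c 6 * c 5 * c 4 * c 3 * c 2 * uu * (c 1)⁻¹ * (c 2)⁻¹ * (c 3)⁻¹ * (c 4)⁻¹) * c 0 *
    (c 6 * c 5 * c 4 * c 3 * c 2 * uu * (c 1)⁻¹ * (c 2)⁻¹ * (c 3)⁻¹ * (c 4)⁻¹)⁻¹

def w1 : FreeGroup (Fin 9) :=
  (c 6 * c 5 * c 4 * b0) * (c 3 * c 2 * c 4 * c 3) * (c 5 * c 4 * c 6 * c 5) *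
    (b0 * c 4 * c 3 * c 2)

/-- the twist `n₃` -/
def n3 : FreeGroup (Fin 9) := w1 * c 1 * w1⁻¹

def w2 : FreeGroup (Fin 9) :=
  (c 8 * c 7 * c 6 * n3) * (c 5 * c 4 * c 6 * c 5) * (c 7 * c 6 * c 8 * c 7) *
    (n3 * c 6 * c 5 * c 4)

/-- the twist `n₄` about the curve which together with the chain `1, …, 8` extends it to a chain of
nine curves -/
def n4 : FreeGroup (Fin 9) := w2 * b0 * w2⁻¹

/-- the relators -/
def modRels : Set (FreeGroup (Fin 9)) :=
  {r | ∃ i j : Fin 9, i < j ∧ Meet i j ∧ r = c i * c j * c i * (c j * c i * c j)⁻¹} ∪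
    {r | ∃ i j : Fin 9, i < j ∧ ¬ Meet i j ∧ r = c i * c j * (c j * c i)⁻¹} ∪
    {(c 1 * c 2 * c 3) ^ 4 * (c 0 * b0)⁻¹,
      (c 0 * b2 * b1) * (c 1 * c 3 * c 5 * b3)⁻¹,
      (c 8 * c 7 * c 6 * c 5 * c 4 * c 3 * c 2 * c 1 * c 1 * c 2 * c 3 * c 4 * c 5 * c 6 * c 7 * c 8) *
        n4 * (n4 * (c 8 * c 7 * c 6 * c 5 * c 4 * c 3 * c 2 * c 1 * c 1 * c 2 * c 3 * c 4 * c 5 *
          c 6 * c 7 * c 8))⁻¹}

/-- The mapping class group of the closed surface of genus `4` (the presentation of Wajnryb). -/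
abbrev Mod4 : Type := PresentedGroup modRels

/-- A homomorphism from `Mod4` to a group `G`: images of the generators which satisfy the relations. -/
theorem exists_lift {G : Type*} [Group G] (f : Fin 9 → G)
    (h : ∀ r ∈ modRels, FreeGroup.lift f r = 1) :
    ∃ φ : Mod4 →* G, ∀ i, φ (PresentedGroup.of i) = f i :=
  ⟨PresentedGroup.toGroup h, fun i => PresentedGroup.toGroup.of h⟩

end Pool.Agent.H.MP_ee9c6f_al.E4
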