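import Mathlib
import Pool.Agent.H.MP_ee9c6f_al.E4.Model
import Pool.Agent.H.MP_ee9c6f_al.E4.GenSet

/-!
MP_ee9c6f_al / E4 (helper38). The presented group `Mod4` satisfies the relations `W.Rels`; the
element `z` of `Mod4`, and a finite generating set `S` with `Commute z (s z s⁻¹)` for `s ∈ S`.
-/

set_option autoImplicit false

namespace Pool.Agent.H.MP_ee9c6f_al.E4

/-- The generators of `Mod4`. -/
def gen (i : Fin 9) : Mod4 := PresentedGroup.of i

theorem mk_c (i : Fin 9) : PresentedGroup.mk modRels (c i) = gen i := rfl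

theorem mk_b0 : PresentedGroup.mk modRels b0 = W.b0 gen := by
  simp only [b0, map_mul, map_inv, mk_c, W.b0, W.A5]

theorem mk_b1 : PresentedGroup.mk modRels b1 = W.b1 gen := by
  simp only [b1, map_mul, map_inv, mk_c, W.b1, W.t2]

theorem mk_b2 : PresentedGroup.mk modRels b2 = W.b2 gen := by
  simp only [b2, map_mul, map_inv, mk_c, mk_b1, W.b2, W.t1]

theorem mk_uu : PresentedGroup.mk modRels uu = W.uu gen := by
  simp only [uu, map_mul, map_inv, mk_c, mk_b1, W.uu]

theorem mk_b3 : PresentedGroup.mk modRels b3 = W.b3 gen := by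
  simp only [b3, map_mul, map_inv, mk_c, mk_uu, W.b3, W.vv]

theorem eq_of_mem {r s : FreeGroup (Fin 9)} (h : r * s⁻¹ ∈ modRels) :
    PresentedGroup.mk modRels r = PresentedGroup.mk modRels s := by
  have h1 : PresentedGroup.mk modRels (r * s⁻¹) = 1 :=
    (PresentedGroup.mk_eq_one_iff).2 (Subgroup.subset_normalClosure h)
  rw [map_mul, map_inv] at h1
  exact mul_inv_eq_one.1 h1

theorem gen_braid {i j : Fin 9} (h : i < j ∧ Meet i j) :
    gen i * gen j * gen i = gen j * gen i * gen j := by
  have := eq_of_mem (r := c i * c j * c i) (s := c j * c i * c j)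
    (Or.inl (Or.inl ⟨i, j, h.1, h.2, rfl⟩))
  simpa only [map_mul, mk_c] using this

theorem gen_comm {i j : Fin 9} (h : i < j ∧ ¬ Meet i j) : Commute (gen i) (gen j) := by
  have := eq_of_mem (r := c i * c j) (s := c j * c i)
    (Or.inl (Or.inr ⟨i, j, h.1, h.2, rfl⟩))
  simp only [map_mul, mk_c] at this
  exact this

instance (i j : Fin 9) : Decidable (Meet i j) := by
  unfold Meet
  infer_instance

theorem rels_gen : W.Rels gen where
  b04 := gen_braid (by decide)
  b12 := gen_braid (by decide)
  b23 := gen_braid (by decide)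
  b34 := gen_braid (by decide)
  b45 := gen_braid (by decide)
  b56 := gen_braid (by decide)
  b67 := gen_braid (by decide)
  b78 := gen_braid (by decide)
  c01 := gen_comm (by decide)
  c02 := gen_comm (by decide)
  c03 := gen_comm (by decide)
  c05 := gen_comm (by decide)
  c06 := gen_comm (by decide)
  c07 := gen_comm (by decide)
  c08 := gen_comm (by decide)
  c13 := gen_comm (by decide)
  c14 := gen_comm (by decide)
  c15 := gen_comm (by decide)
  c16 := gen_comm (by decide)
  c17 := gen_comm (by decide)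
  c18 := gen_comm (by decide)
  c24 := gen_comm (by decide)
  c25 := gen_comm (by decide)
  c26 := gen_comm (by decide)
  c27 := gen_comm (by decide)
  c28 := gen_comm (by decide)
  c35 := gen_comm (by decide)
  c36 := gen_comm (by decide)
  c37 := gen_comm (by decide)
  c38 := gen_comm (by decide)
  c46 := gen_comm (by decide)
  c47 := gen_comm (by decide)
  c48 := gen_comm (by decide)
  c57 := gen_comm (by decide)
  c58 := gen_comm (by decide)
  c68 := gen_comm (by decide)
  chain := by
    have := eq_of_mem (r := (c 1 * c 2 * c 3) ^ 4) (s := c 0 * b0) (Or.inr (Or.inl rfl))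
    simpa only [map_mul, map_pow, mk_c, mk_b0] using this
  lantern := by
    have := eq_of_mem (r := c 0 * b2 * b1) (s := c 1 * c 3 * c 5 * b3)
      (Or.inr (Or.inr (Or.inl rfl)))
    simpa only [map_mul, mk_c, mk_b1, mk_b2, mk_b3] using this

theorem closure_gen : Subgroup.closure (Set.range gen) = ⊤ := PresentedGroup.closure_range_of _

/-- The element `z = (c₀ b₁⁻¹)³` of `Mod4`. -/
def z4 : Mod4 := PresentedGroup.mk modRels ((c 0 * b1⁻¹) ^ 3)

theorem z4_eq : z4 = W.zz gen := by
  simp only [z4, map_pow, map_mul, map_inv, mk_c, mk_b1, W.zz]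

/-- The generating set. -/
theorem exists_genSet : ∃ S : Set Mod4, S.Finite ∧ Subgroup.closure S = ⊤ ∧
    ∀ s ∈ S, Commute z4 (s * z4 * s⁻¹) := by
  refine ⟨W.genS gen, W.genS_finite gen, rels_gen.closure_genS closure_gen, ?_⟩
  rw [z4_eq]
  exact rels_gen.zz_comm

end Pool.Agent.H.MP_ee9c6f_al.E4
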