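import Pool.Agent.H.MP_ee9c6f_al.E2.Final

/-!
MP_ee9c6f_al, genus 4 (helper40). Two relative ends from a homomorphism of a subgroup of finite index
onto an infinite cyclic group with finitely generated kernel.
-/

set_option autoImplicit false

namespace Pool.Agent.H.MP_ee9c6f_al.E4

open Pointwise E2

/-- the infinite cyclic group -/
abbrev Zm : Type := Multiplicative ℤ

/-- the element `n` -/
def el (n : ℤ) : Zm := Multiplicative.ofAdd n

theorem el_smul (n m : ℤ) : el n • el m = el (n + m) := rfl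

theorem exists_el (x : Zm) : ∃ n : ℤ, el n = x := ⟨Multiplicative.toAdd x, rfl⟩

/-- An almost invariant set contains a half line or is disjoint from it (right side). -/
theorem right_tail {U : Set Zm} (hU : AInv Zm U) :
    ∃ N : ℤ, (∀ n ≥ N, el n ∈ U) ∨ ∀ n ≥ N, el n ∉ U := by
  have h1 := hU (el 1)
  have h2 : {n : ℤ | el n ∈ symmDiff (el 1 • U) U}.Finite :=
    Set.Finite.preimage (f := el) (fun a _ b _ h => h) h1
  obtain ⟨N, hN⟩ := h2.bddAbove
  have key : ∀ n > N, (el (n - 1) ∈ U ↔ el n ∈ U) := by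
    intro n hn
    have h3 : el n ∉ symmDiff (el 1 • U) U := fun h => by
      have h5 : n ≤ N := hN h
      omega
    have h4 : el n ∈ el 1 • U ↔ el (n - 1) ∈ U := by
      rw [Set.mem_smul_set_iff_inv_smul_mem]
      have : (el 1)⁻¹ • el n = el (n - 1) := by
        change el (-1 + n) = el (n - 1)
        congr 1
        ring
      rw [this]
    rw [Set.mem_symmDiff, h4] at h3
    tauto
  have key2 : ∀ k : ℕ, (el (N + k) ∈ U ↔ el N ∈ U) := by
    intro k
    induction k with
    | zero => simp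
    | succ k ih =>
      rw [← ih]
      have := key (N + (k + 1 : ℕ)) (by push_cast; omega)
      have e : N + ((k + 1 : ℕ) : ℤ) - 1 = N + k := by push_cast; ring
      rw [e] at this
      exact this.symm
  have key3 : ∀ n ≥ N, (el n ∈ U ↔ el N ∈ U) := by
    intro n hn
    have := key2 (n - N).toNat
    have e : N + ((n - N).toNat : ℤ) = n := by omega
    rwa [e] at this
  by_cases h : el N ∈ U
  · exact ⟨N, Or.inl fun n hn => (key3 n hn).2 h⟩
  · exact ⟨N, Or.inr fun n hn h' => h ((key3 n hn).1 h')⟩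

/-- the same for the left side -/
theorem left_tail {U : Set Zm} (hU : AInv Zm U) :
    ∃ N : ℤ, (∀ n ≤ N, el n ∈ U) ∨ ∀ n ≤ N, el n ∉ U := by
  have h1 := hU (el 1)
  have h2 : {n : ℤ | el n ∈ symmDiff (el 1 • U) U}.Finite :=
    Set.Finite.preimage (f := el) (fun a _ b _ h => h) h1
  obtain ⟨N, hN⟩ := h2.bddBelow
  have key : ∀ n < N, (el (n - 1) ∈ U ↔ el n ∈ U) := by
    intro n hn
    have h3 : el n ∉ symmDiff (el 1 • U) U := fun h => by
      have h5 : N ≤ n := hN h
      omega
    have h4 : el n ∈ el 1 • U ↔ el (n - 1) ∈ U := by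
      rw [Set.mem_smul_set_iff_inv_smul_mem]
      have : (el 1)⁻¹ • el n = el (n - 1) := by
        change el (-1 + n) = el (n - 1)
        congr 1
        ring
      rw [this]
    rw [Set.mem_symmDiff, h4] at h3
    tauto
  have key2 : ∀ k : ℕ, (el (N - 1 - k) ∈ U ↔ el (N - 1) ∈ U) := by
    intro k
    induction k with
    | zero => simp
    | succ k ih =>
      rw [← ih]
      have := key (N - 1 - k) (by omega)
      have e : N - 1 - (k : ℤ) - 1 = N - 1 - ((k + 1 : ℕ) : ℤ) := by push_cast; ring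
      rw [e] at this
      exact this
  have key3 : ∀ n ≤ N - 1, (el n ∈ U ↔ el (N - 1) ∈ U) := by
    intro n hn
    have := key2 (N - 1 - n).toNat
    have e : N - 1 - ((N - 1 - n).toNat : ℤ) = n := by omega
    rwa [e] at this
  by_cases h : el (N - 1) ∈ U
  · exact ⟨N - 1, Or.inl fun n hn => (key3 n hn).2 h⟩
  · exact ⟨N - 1, Or.inr fun n hn h' => h ((key3 n hn).1 h')⟩

/-- An infinite almost invariant set contains a half line. -/
theorem tail {U : Set Zm} (hU : AInv Zm U) (hi : U.Infinite) :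
    (∃ N : ℤ, ∀ n ≥ N, el n ∈ U) ∨ ∃ N : ℤ, ∀ n ≤ N, el n ∈ U := by
  obtain ⟨N, h | h⟩ := right_tail hU
  · exact Or.inl ⟨N, h⟩
  obtain ⟨N', h' | h'⟩ := left_tail hU
  · exact Or.inr ⟨N', h'⟩
  exfalso
  apply hi
  refine ((Set.finite_Ioo N' N).image el).subset ?_
  intro x hx
  obtain ⟨n, rfl⟩ := exists_el x
  refine ⟨n, ⟨?_, ?_⟩, rfl⟩
  · by_contra hn
    exact h' n (not_lt.1 hn) hx
  · by_contra hn
    exact h n (not_lt.1 hn) hx

theorem AInv_ge : AInv Zm (el '' Set.Ici 0) := by
  intro g
  obtain ⟨k, rfl⟩ := exists_el g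
  refine ((Set.finite_Icc (min 0 k) (max 0 k)).image el).subset ?_
  intro x hx
  obtain ⟨n, rfl⟩ := exists_el x
  refine ⟨n, ?_, rfl⟩
  have h1 : el n ∈ el k • (el '' Set.Ici (0 : ℤ)) ↔ k ≤ n := by
    rw [Set.mem_smul_set_iff_inv_smul_mem]
    have : (el k)⁻¹ • el n = el (n - k) := by
      change el (-k + n) = el (n - k)
      congr 1
      ring
    rw [this]
    constructor
    · rintro ⟨m, hm, hm'⟩
      have : m = n - k := hm'
      have hm0 : (0 : ℤ) ≤ m := hm
      omega
    · intro h
      exact ⟨n - k, by rw [Set.mem_Ici]; omega, rfl⟩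
  have h2 : el n ∈ el '' Set.Ici (0 : ℤ) ↔ 0 ≤ n := by
    constructor
    · rintro ⟨m, hm, hm'⟩
      have : m = n := hm'
      rw [← this]
      exact hm
    · intro h
      exact ⟨n, h, rfl⟩
  rw [Set.mem_symmDiff, h1, h2] at hx
  rw [Set.mem_Icc]
  omega

/-- the infinite cyclic group has two ends -/
theorem hasEnds_Zm (n : ℕ) : HasEnds Zm Zm n ↔ n ≤ 2 := by
  constructor
  · rintro ⟨U, h1, h2⟩
    by_contra hn
    have hcase : ∀ i, (∃ N : ℤ, ∀ n ≥ N, el n ∈ U i) ∨ ∃ N : ℤ, ∀ n ≤ N, el n ∈ U i :=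
      fun i => tail (h2 i).2 (h2 i).1
    have hR : ∀ i j, (∃ N : ℤ, ∀ n ≥ N, el n ∈ U i) → (∃ N : ℤ, ∀ n ≥ N, el n ∈ U j) → i = j := by
      rintro i j ⟨N, hN⟩ ⟨N', hN'⟩
      by_contra hij
      exact Set.disjoint_left.1 (h1 i j hij) (hN (max N N') (le_max_left _ _))
        (hN' (max N N') (le_max_right _ _))
    have hL : ∀ i j, (∃ N : ℤ, ∀ n ≤ N, el n ∈ U i) → (∃ N : ℤ, ∀ n ≤ N, el n ∈ U j) → i = j := by
      rintro i j ⟨N, hN⟩ ⟨N', hN'⟩
      by_contra hij
      exact Set.disjoint_left.1 (h1 i j hij) (hN (min N N') (min_le_left _ _))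
        (hN' (min N N') (min_le_right _ _))
    let a : Fin n := ⟨0, by omega⟩
    let b : Fin n := ⟨1, by omega⟩
    let d : Fin n := ⟨2, by omega⟩
    have hab : a ≠ b := fun h => by simpa [a, b] using congrArg Fin.val h
    have had : a ≠ d := fun h => by simpa [a, d] using congrArg Fin.val h
    have hbd : b ≠ d := fun h => by simpa [b, d] using congrArg Fin.val h
    rcases hcase a with ha | ha <;> rcases hcase b with hb | hb <;> rcases hcase d with hd | hd
    · exact hab (hR _ _ ha hb)
    · exact hab (hR _ _ ha hb)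
    · exact had (hR _ _ ha hd)
    · exact hbd (hL _ _ hb hd)
    · exact hbd (hR _ _ hb hd)
    · exact had (hL _ _ ha hd)
    · exact hab (hL _ _ ha hb)
    · exact hab (hL _ _ ha hb)
  · intro hn
    let V : Fin 2 → Set Zm := ![el '' Set.Ici 0, (el '' Set.Ici 0)ᶜ]
    have hV : (∀ i j, i ≠ j → Disjoint (V i) (V j)) ∧ ∀ i, (V i).Infinite ∧ AInv Zm (V i) := by
      constructor
      · intro i j hij
        fin_cases i <;> fin_cases j
        · exact absurd rfl hij
        · exact disjoint_compl_right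
        · exact disjoint_compl_left
        · exact absurd rfl hij
      · intro i
        fin_cases i
        · exact ⟨(Set.Ici_infinite 0).image (fun a _ b _ h => h), AInv_ge⟩
        · refine ⟨?_, AInv_ge.compl⟩
          refine ((Set.Iio_infinite (0 : ℤ)).image (f := el) (fun a _ b _ h => h)).mono ?_
          rintro _ ⟨m, hm, rfl⟩ ⟨m', hm', h⟩
          have h1 : m' = m := h
          have h2 : m < 0 := hm
          have h3 : (0 : ℤ) ≤ m' := hm'
          omega
    exact ⟨fun i => V (Fin.castLE hn i), fun i j hij => hV.1 _ _ fun h =>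
      hij (Fin.castLE_injective hn h), fun i => hV.2 _⟩

theorem hasEnds_Zm' (n : ℕ) : HasEnds Zm (Zm ⧸ (⊥ : Subgroup Zm)) n ↔ n ≤ 2 := by
  rw [← hasEnds_Zm n]
  refine HasEnds.of_equiv (f := MonoidHom.id Zm) Function.surjective_id
    QuotientGroup.quotientBot.toEquiv ?_
  intro g x
  induction x using QuotientGroup.induction_on with
  | H a => rfl

/-- `M` is a subgroup of finite index of `G`, and `χ : M → ℤ` is a nontrivial homomorphism. Then the
kernel of `χ` has two relative ends in `G`. -/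
theorem relEnds_ker {G : Type} [Group G] (M : Subgroup G) [M.FiniteIndex]
    (χ : M →* Multiplicative ℤ) (h1 : ∃ m, χ m ≠ 1) {S : Set G} (hfin : S.Finite)
    (hS : Subgroup.closure S = ⊤) : relEnds S (χ.ker.map M.subtype) = 2 := by
  have hinf : Infinite χ.range := by
    obtain ⟨m, hm⟩ := h1
    have hinj : Function.Injective (fun n : ℕ => (⟨χ m ^ n, ⟨m ^ n, by rw [map_pow]⟩⟩ : χ.range)) := by
      intro a b hab
      have h3 : χ m ^ a = χ m ^ b := congrArg Subtype.val hab
      have h4 : (a : ℤ) * Multiplicative.toAdd (χ m) = b * Multiplicative.toAdd (χ m) := by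
        have := congrArg Multiplicative.toAdd h3
        simpa using this
      have h5 : Multiplicative.toAdd (χ m) ≠ 0 := fun h => hm (by
        rw [← ofAdd_toAdd (χ m), h]
        rfl)
      exact_mod_cast mul_right_cancel₀ h5 h4
    exact Infinite.of_injective _ hinj
  have e : χ.range ≃* Zm := mulEquivOfCyclicCardEq (by
    rw [Nat.card_eq_zero_of_infinite, Nat.card_eq_zero_of_infinite])
  let f : M →* Zm := e.toMonoidHom.comp χ.rangeRestrict
  have hf : Function.Surjective f := e.surjective.comp χ.rangeRestrict_surjective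
  have hker : (⊥ : Subgroup Zm).comap f = χ.ker := by
    ext x
    rw [Subgroup.mem_comap, Subgroup.mem_bot, MonoidHom.mem_ker]
    change e (χ.rangeRestrict x) = 1 ↔ _
    rw [MulEquiv.map_eq_one_iff]
    exact Subtype.ext_iff
  have hi : Function.Injective M.subtype := M.subtype_injective
  have hfi : M.subtype.range.FiniteIndex := by
    rw [Subgroup.range_subtype]
    infer_instance
  refine relEnds_eq_of_forall hfin hS _ 2 fun k => ?_
  rw [hasEnds_index hi hfi, ← hker]
  exact (HasEnds.of_equiv hf (Equiv.ofBijective _ (pullMap_bijective hf ⊥))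
    (pullMap_smul f ⊥)).trans (hasEnds_Zm' k)

/-- `M` is a subgroup of finite index of `G`, and `χ : M → ℤ` is a nontrivial homomorphism with
finitely generated kernel. Then there is a finitely generated subgroup with two relative ends. -/
theorem exists_two {G : Type} [Group G] (M : Subgroup G) [M.FiniteIndex]
    (χ : M →* Multiplicative ℤ) (h1 : ∃ m, χ m ≠ 1) (h2 : χ.ker.FG) :
    ∃ H : Subgroup G, H.FG ∧ ∀ S : Set G, S.Finite → Subgroup.closure S = ⊤ →
      relEnds S H = 2 :=
  ⟨χ.ker.map M.subtype, FG.map _ h2, fun _ hfin hS => relEnds_ker M χ h1 hfin hS⟩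

end Pool.Agent.H.MP_ee9c6f_al.E4
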