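import Pool.Agent.H.MP_ee9c6f_al.E4.Gen

/-!
MP_ee9c6f_al (helper40). The set of relators is finite.
-/

set_option autoImplicit false

namespace Pool.Agent.H.MP_ee9c6f_al.Wajnryb

theorem rels_finite (g : ℕ) : (rels g).Finite := by
  have key : ∀ (P : ℕ → ℕ → Prop) (f : ℕ → ℕ → FreeGroup (Fin (2 * g + 1))),
      {r | ∃ i j : ℕ, i < j ∧ j ≤ 2 * g ∧ P i j ∧ r = f i j}.Finite := by
    intro P f
    refine ((Set.finite_Iic (2 * g)).prod (Set.finite_Iic (2 * g))).image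
      (fun p : ℕ × ℕ => f p.1 p.2) |>.subset ?_
    rintro r ⟨i, j, h1, h2, -, rfl⟩
    exact ⟨(i, j), ⟨by rw [Set.mem_Iic]; omega, h2⟩, rfl⟩
  unfold rels
  exact ((key _ _).union (key _ _)).union
    (((Set.finite_singleton _).insert _).insert _)

end Pool.Agent.H.MP_ee9c6f_al.Wajnryb
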