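import Mathlib
import Pool.Agent.H.MP_ee9c6f_al.E4.KerFG
import Pool.Agent.H.MP_ee9c6f_al.E4.GenSet

/-!
MP_ee9c6f_al / E4 (helper38). The criterion of `KerFG` for a group generated by elements
`a 0, …, a 8` satisfying the relations `Rels`.
-/

set_option autoImplicit false

namespace Pool.Agent.H.MP_ee9c6f_al.E4.W

/-- Version with a function `χ` on the whole group. -/
theorem ker_fg_of_rels {G : Type*} [Group G] {a : Fin 9 → G} (h : Rels a)
    (hgen : Subgroup.closure (Set.range a) = ⊤) {M : Subgroup G} [M.Normal] [M.FiniteIndex]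
    {χ : G → ℤ} (hχ : ∀ x ∈ M, ∀ y ∈ M, χ (x * y) = χ x + χ y) (hzM : zz a ∈ M)
    (hne : ∀ g : G, χ (g * zz a * g⁻¹) ≠ 0) {N : Subgroup G} (hN : ∀ x, x ∈ N ↔ x ∈ M ∧ χ x = 0) :
    N.FG :=
  core (genS_finite a) (h.closure_genS hgen) h.zz_comm hχ hzM hne hN

/-- Version with a homomorphism `χ : M →* Multiplicative ℤ`. -/
theorem ker_fg_of_rels' {G : Type*} [Group G] {a : Fin 9 → G} (h : Rels a)
    (hgen : Subgroup.closure (Set.range a) = ⊤) {M : Subgroup G} [hM : M.Normal] [M.FiniteIndex]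
    (χ : M →* Multiplicative ℤ) (hzM : zz a ∈ M)
    (hne : ∀ g : G, χ ⟨g * zz a * g⁻¹, hM.conj_mem _ hzM g⟩ ≠ 1) :
    (χ.ker.map M.subtype).FG := by
  classical
  let c : G → ℤ := fun x => if hx : x ∈ M then Multiplicative.toAdd (χ ⟨x, hx⟩) else 0
  have hc : ∀ x (hx : x ∈ M), c x = Multiplicative.toAdd (χ ⟨x, hx⟩) := fun x hx => dif_pos hx
  refine ker_fg_of_rels (M := M) (χ := c) h hgen ?_ hzM ?_ ?_
  · intro x hx y hy
    rw [hc x hx, hc y hy, hc _ (M.mul_mem hx hy), ← toAdd_mul, ← map_mul]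
    rfl
  · intro g hg
    rw [hc _ (hM.conj_mem _ hzM g)] at hg
    exact hne g (by rwa [← toAdd_one, Multiplicative.toAdd.injective.eq_iff] at hg)
  · intro x
    constructor
    · rintro ⟨⟨y, hy⟩, hk, rfl⟩
      refine ⟨hy, ?_⟩
      change c y = 0
      rw [hc y hy, (MonoidHom.mem_ker).1 hk, toAdd_one]
    · rintro ⟨hx, h0⟩
      refine ⟨⟨x, hx⟩, ?_, rfl⟩
      rw [hc x hx] at h0
      exact (MonoidHom.mem_ker).2 (by rwa [← toAdd_one, Multiplicative.toAdd.injective.eq_iff] at h0)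

end Pool.Agent.H.MP_ee9c6f_al.E4.W
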