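import Pool.Agent.H.MP_ee9c6f_al.E4.Gen
import Pool.Agent.H.MP_ee9c6f_al.E4.Bridge

/-!
MP_ee9c6f_al, genus 4 (helper40). From the character of a normal subgroup of finite index of `Mod4`
to the subgroup with two relative ends.
-/

set_option autoImplicit false

namespace Pool.Agent.H.MP_ee9c6f_al.E4

/-- From the representation to the subgroup with two relative ends. -/
theorem two_of_rep (h : ∃ (M : Subgroup Mod4) (χ : Mod4 → ℤ), M.Normal ∧ M.FiniteIndex ∧ z4 ∈ M ∧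
      (∀ x ∈ M, ∀ y ∈ M, χ (x * y) = χ x + χ y) ∧ ∀ g : Mod4, χ (g * z4 * g⁻¹) ≠ 0) :
    Wajnryb.TwoEnds Mod4 := by
  obtain ⟨M, χ, hM, hfin, hz, hχ, hne⟩ := h
  obtain ⟨S, hS, hcl, hcomm⟩ := exists_genSet
  let f : M →* Multiplicative ℤ :=
    { toFun := fun x => Multiplicative.ofAdd (χ x)
      map_one' := by
        change Multiplicative.ofAdd (χ 1) = 1
        rw [chi_one hχ]
        rfl
      map_mul' := fun x y => by
        change Multiplicative.ofAdd (χ ((x : Mod4) * y)) = _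
        rw [hχ _ x.2 _ y.2]
        rfl }
  exact ⟨M, hM, hfin, assemble' M f hz (fun g h => hne g h) hS hcl hcomm⟩

/-- The same for the uniform presentation of Gen.lean. -/
theorem two_of_rep' (h : ∃ (M : Subgroup Mod4) (χ : Mod4 → ℤ), M.Normal ∧ M.FiniteIndex ∧
      z4 ∈ M ∧ (∀ x ∈ M, ∀ y ∈ M, χ (x * y) = χ x + χ y) ∧ ∀ g : Mod4, χ (g * z4 * g⁻¹) ≠ 0) :
    Wajnryb.TwoEnds (Wajnryb.Mod 4) :=
  Wajnryb.two_four (two_of_rep h)

end Pool.Agent.H.MP_ee9c6f_al.E4
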